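import Mathlib

/-!
# GH, block B1: the contradiction

`O` a valuation ring, `ℓ` a family of `q ≥ rn + 2` vectors of `O^(n+1)` such that the only `n + 1` of them which are dependent modulo the maximal
ideal are the special ones `A ∪ {i, ι i}`, `i ∈ V`. There are no constants `c j`, `j ∈ V₂ = ι(V)`, and `r`-tuples of points `x i`, `i ∈ V`, with the
first point on the hyperplanes of `A ∪ {i}`, each hyperplane not in `V₂` meeting `x i`, and `∏ σ, ℓ j (x i σ) = c j` for `j ∈ V₂`.
-/

set_option autoImplicit false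

namespace Pool.Agent.Helper97.GH

open Finset Matrix

open Classical in
/-- The number of hyperplanes through a point. -/
theorem zeros_card {k : Type*} [Field k] {n q : ℕ} (L : Fin q → Fin (n + 1) → k) (A V : Finset (Fin q))
    (hA : A.Nonempty) (ι : Fin q → Fin q) (hAc : A.card + 1 = n)
    (hL : ∀ B : Fin (n + 1) → Fin q, Function.Injective B →
      (∀ i ∈ V, ∃ a, B a ∉ insert i (insert (ι i) A)) → (Matrix.of fun a j => L (B a) j).det ≠ 0)
    (z : Fin (n + 1) → k) (hz : z ≠ 0) :
    (univ.filter fun g => L g ⬝ᵥ z = 0).card ≤ n ∨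
      (A ⊆ univ.filter fun g => L g ⬝ᵥ z = 0) ∧ (univ.filter fun g => L g ⬝ᵥ z = 0).card = n + 1 := by
  classical
  set Z := univ.filter fun g => L g ⬝ᵥ z = 0 with hZ
  have key : ∀ B : Finset (Fin q), B ⊆ Z → B.card = n + 1 → ∃ i ∈ V, B ⊆ insert i (insert (ι i) A) := by
    intro B hB hBc
    by_contra hcon
    push Not at hcon
    let e := B.orderEmbOfFin hBc
    have h1 := hL e e.injective (by
      intro i hi
      obtain ⟨b, hb, hb'⟩ := Finset.not_subset.1 (hcon i hi)
      have : b ∈ Set.range e := by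
        rw [Finset.range_orderEmbOfFin]
        exact hb
      obtain ⟨a, ha⟩ := this
      exact ⟨a, by rw [ha]; exact hb'⟩)
    apply hz
    refine Matrix.eq_zero_of_mulVec_eq_zero h1 ?_
    funext a
    have h2 : (e a : Fin q) ∈ Z := hB (B.orderEmbOfFin_mem hBc a)
    exact (Finset.mem_filter.1 h2).2
  rcases le_or_gt Z.card n with h | h
  · exact Or.inl h
  · right
    obtain ⟨B, hB, hBc⟩ := Finset.exists_subset_card_eq (show n + 1 ≤ Z.card from h)
    obtain ⟨i, hi, hBi⟩ := key B hB hBc
    have hcard : (insert i (insert (ι i) A)).card ≤ n + 1 := by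
      have h1 := Finset.card_insert_le i (insert (ι i) A)
      have h2 := Finset.card_insert_le (ι i) A
      omega
    have hBe : B = insert i (insert (ι i) A) := Finset.eq_of_subset_of_card_le hBi (by omega)
    have hAB : A ⊆ B := by
      rw [hBe]
      intro a ha
      exact Finset.mem_insert_of_mem (Finset.mem_insert_of_mem ha)
    have hZB : Z = B := by
      by_contra hne
      have h1 : ∃ g ∈ Z, g ∉ B := by
        by_contra h2
        push Not at h2
        exact hne (Finset.Subset.antisymm h2 hB)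
      obtain ⟨g, hg, hgB⟩ := h1
      obtain ⟨h, hh⟩ := hA
      have hhB := hAB hh
      have hgh : g ≠ h := fun e => hgB (e ▸ hhB)
      obtain ⟨i', hi', hsub⟩ := key (insert g (B.erase h)) (by
        intro y hy
        rcases Finset.mem_insert.1 hy with rfl | hy
        · exact hg
        · exact hB (Finset.mem_of_mem_erase hy)) (by
        rw [Finset.card_insert_of_notMem (fun h2 => hgB (Finset.mem_of_mem_erase h2)),
          Finset.card_erase_of_mem hhB, hBc]
        omega)
      have hcard' : (insert i' (insert (ι i') A)).card ≤ n + 1 := by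
        have h1 := Finset.card_insert_le i' (insert (ι i') A)
        have h2 := Finset.card_insert_le (ι i') A
        omega
      have he : insert g (B.erase h) = insert i' (insert (ι i') A) :=
        Finset.eq_of_subset_of_card_le hsub (by
          rw [Finset.card_insert_of_notMem (fun h2 => hgB (Finset.mem_of_mem_erase h2)),
            Finset.card_erase_of_mem hhB, hBc]
          omega)
      have h3 : h ∈ insert g (B.erase h) := by
        rw [he]
        exact Finset.mem_insert_of_mem (Finset.mem_insert_of_mem hh)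
      rcases Finset.mem_insert.1 h3 with h4 | h4
      · exact hgh h4.symm
      · exact (Finset.mem_erase.1 h4).1 rfl
    rw [hZB]
    exact ⟨hAB, hBc⟩

/-- The number of hyperplanes met by `r` points. -/
theorem union_card {q n r : ℕ} (hn : 2 ≤ n) (A : Finset (Fin q)) (hAc : A.card + 1 = n) (Z : Fin r → Finset (Fin q))
    (hZ : ∀ σ, (Z σ).card ≤ n ∨ A ⊆ Z σ ∧ (Z σ).card = n + 1) :
    (univ.biUnion Z).card ≤ r * n + 1 := by
  classical
  by_cases h : ∃ σ, A ⊆ Z σ ∧ (Z σ).card = n + 1
  · obtain ⟨σ, hσ, hσc⟩ := h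
    have hsub : univ.biUnion Z ⊆ Z σ ∪ (univ.erase σ).biUnion fun τ => Z τ \ A := by
      intro g hg
      obtain ⟨τ, -, hτ⟩ := Finset.mem_biUnion.1 hg
      by_cases h1 : g ∈ Z σ
      · exact Finset.mem_union_left _ h1
      · refine Finset.mem_union_right _ (Finset.mem_biUnion.2 ⟨τ, ?_, ?_⟩)
        · refine Finset.mem_erase.2 ⟨?_, Finset.mem_univ _⟩
          rintro rfl
          exact h1 hτ
        · exact Finset.mem_sdiff.2 ⟨hτ, fun h2 => h1 (hσ h2)⟩
    have hle : ∀ τ ∈ univ.erase σ, (Z τ \ A).card ≤ n := by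
      intro τ _
      rcases hZ τ with h1 | ⟨h1, h2⟩
      · exact (Finset.card_le_card Finset.sdiff_subset).trans h1
      · rw [Finset.card_sdiff_of_subset h1]
        omega
    have h3 := Finset.card_biUnion_le_card_mul (univ.erase σ) (fun τ => Z τ \ A) n hle
    rw [Finset.card_erase_of_mem (Finset.mem_univ _), Finset.card_univ, Fintype.card_fin] at h3
    have h4 := (Finset.card_le_card hsub).trans (Finset.card_union_le _ _)
    have hr : 1 ≤ r := Fin.pos σ
    obtain ⟨r, rfl⟩ : ∃ r', r = r' + 1 := ⟨r - 1, by omega⟩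
    simp only [Nat.add_sub_cancel] at h3
    calc _ ≤ (n + 1) + r * n := h4.trans (by omega)
      _ = (r + 1) * n + 1 := by ring
  · push Not at h
    have hle : ∀ τ ∈ (univ : Finset (Fin r)), (Z τ).card ≤ n := by
      intro τ _
      rcases hZ τ with h1 | ⟨h1, h2⟩
      · exact h1
      · exact absurd h2 (h τ h1)
    have h3 := Finset.card_biUnion_le_card_mul univ Z n hle
    rw [Finset.card_univ, Fintype.card_fin] at h3
    omega

/-- The point `A ∪ {i}` lies on the hyperplane `ι i`. -/
theorem inc {k : Type*} [Field k] {n q : ℕ} (hq : n + 2 ≤ q) (L : Fin q → Fin (n + 1) → k) (A V : Finset (Fin q))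
    (ι : Fin q → Fin q) (hAc : A.card + 1 = n)
    (hL : ∀ B : Fin (n + 1) → Fin q, Function.Injective B →
      (∀ i ∈ V, ∃ a, B a ∉ insert i (insert (ι i) A)) → (Matrix.of fun a j => L (B a) j).det ≠ 0)
    (i : Fin q) (hi : i ∈ V) (hiA : i ∉ A) (hιA : ι i ∉ A) (hιi : ι i ≠ i)
    (hspec : ∀ i' ∈ V, i ≠ i' → ι i ≠ ι i' ∧ i ≠ ι i')
    (hdep : ∀ B : Fin (n + 1) → Fin q, Function.Injective B →
      (∀ a, B a ∈ insert i (insert (ι i) A)) → (Matrix.of fun a j => L (B a) j).det = 0)
    (z : Fin (n + 1) → k) (hzA : ∀ h ∈ insert i A, L h ⬝ᵥ z = 0) : L (ι i) ⬝ᵥ z = 0 := by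
  classical
  -- the special set
  have hS : (insert i (insert (ι i) A)).card = n + 1 := by
    rw [Finset.card_insert_of_notMem, Finset.card_insert_of_notMem hιA]
    · omega
    · intro h
      rcases Finset.mem_insert.1 h with h | h
      · exact hιi h.symm
      · exact hiA h
  obtain ⟨g, hg⟩ : ∃ g, g ∉ insert i (insert (ι i) A) := by
    by_contra hcon
    push Not at hcon
    have : (univ : Finset (Fin q)) ⊆ insert i (insert (ι i) A) := fun y _ => hcon y
    have h1 := Finset.card_le_card this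
    rw [Finset.card_univ, Fintype.card_fin] at h1
    omega
  have hgi : g ≠ i := fun h => hg (h ▸ Finset.mem_insert_self _ _)
  have hgA : g ∉ A := fun h => hg (Finset.mem_insert_of_mem (Finset.mem_insert_of_mem h))
  have hgι : g ≠ ι i := fun h => hg (Finset.mem_insert_of_mem (h ▸ Finset.mem_insert_self _ _))
  have hT : (insert g (insert i A)).card = n + 1 := by
    rw [Finset.card_insert_of_notMem, Finset.card_insert_of_notMem hiA]
    · omega
    · intro h
      rcases Finset.mem_insert.1 h with h | h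
      · exact hgi h
      · exact hgA h
  -- vectors killed by `A ∪ {i, g}` vanish
  have hzero : ∀ y : Fin (n + 1) → k, (∀ h ∈ insert g (insert i A), L h ⬝ᵥ y = 0) → y = 0 := by
    intro y hy
    let e := (insert g (insert i A)).orderEmbOfFin hT
    refine Matrix.eq_zero_of_mulVec_eq_zero (hL e e.injective ?_) ?_
    · intro i' hi'
      by_contra hcon
      push Not at hcon
      have hsub : insert g (insert i A) ⊆ insert i' (insert (ι i') A) := by
        intro b hb
        have : b ∈ Set.range e := by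
          rw [Finset.range_orderEmbOfFin]
          exact hb
        obtain ⟨a, ha⟩ := this
        rw [← ha]
        exact hcon a
      by_cases hii : i = i'
      · subst hii
        exact hg (hsub (Finset.mem_insert_self _ _))
      · have h1 := hsub (Finset.mem_insert_of_mem (Finset.mem_insert_self _ _))
        rcases Finset.mem_insert.1 h1 with h1 | h1
        · exact hii h1
        · rcases Finset.mem_insert.1 h1 with h1 | h1
          · exact (hspec i' hi' hii).2 h1
          · exact hiA h1
    · funext a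
      exact hy _ ((insert g (insert i A)).orderEmbOfFin_mem hT a)
  -- a vector killed by the special set
  let e := (insert i (insert (ι i) A)).orderEmbOfFin hS
  obtain ⟨w, hw0, hw⟩ := Matrix.exists_mulVec_eq_zero_iff.2
    (hdep e e.injective fun a => (insert i (insert (ι i) A)).orderEmbOfFin_mem hS a)
  have hw' : ∀ h ∈ insert i (insert (ι i) A), L h ⬝ᵥ w = 0 := by
    intro h hh
    have : h ∈ Set.range e := by
      rw [Finset.range_orderEmbOfFin]
      exact hh
    obtain ⟨a, ha⟩ := this
    rw [← ha]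
    exact congrFun hw a
  have hb : L g ⬝ᵥ w ≠ 0 := by
    intro h0
    apply hw0
    apply hzero
    intro h hh
    rcases Finset.mem_insert.1 hh with rfl | hh
    · exact h0
    · apply hw'
      rcases Finset.mem_insert.1 hh with rfl | hh
      · exact Finset.mem_insert_self _ _
      · exact Finset.mem_insert_of_mem (Finset.mem_insert_of_mem hh)
  have hcomb : (L g ⬝ᵥ w) • z - (L g ⬝ᵥ z) • w = 0 := by
    apply hzero
    intro h hh
    rw [dotProduct_sub, dotProduct_smul, dotProduct_smul]
    rcases Finset.mem_insert.1 hh with rfl | hh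
    · simp only [smul_eq_mul]
      ring
    · have h1 : L h ⬝ᵥ w = 0 := by
        apply hw'
        rcases Finset.mem_insert.1 hh with rfl | hh
        · exact Finset.mem_insert_self _ _
        · exact Finset.mem_insert_of_mem (Finset.mem_insert_of_mem hh)
      rw [hzA h hh, h1]
      simp
  have h2 : L (ι i) ⬝ᵥ ((L g ⬝ᵥ w) • z - (L g ⬝ᵥ z) • w) = 0 := by
    rw [hcomb, dotProduct_zero]
  rw [dotProduct_sub, dotProduct_smul, dotProduct_smul,
    hw' (ι i) (Finset.mem_insert_of_mem (Finset.mem_insert_self _ _))] at h2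
  simp only [smul_eq_mul, mul_zero, sub_zero] at h2
  exact (mul_eq_zero.1 h2).resolve_left hb

/-- A primitive multiple. -/
theorem prim {F : Type*} [Field F] (O : ValuationSubring F) {n : ℕ} (z : Fin (n + 1) → F) (hz : z ≠ 0) :
    ∃ (t : F) (z' : Fin (n + 1) → O), t ≠ 0 ∧ (∀ j, (z' j : F) = t * z j) ∧ ∃ j, z' j = 1 := by
  obtain ⟨j, -, hj⟩ := Finset.exists_max_image univ (fun j => O.valuation (z j)) ⟨0, Finset.mem_univ 0⟩
  have hj0 : z j ≠ 0 := by
    intro h
    apply hz
    funext i
    have := hj i (Finset.mem_univ i)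
    rw [h, map_zero, le_zero_iff] at this
    exact (map_eq_zero _).1 this
  refine ⟨(z j)⁻¹, fun i => ⟨(z j)⁻¹ * z i, ?_⟩, inv_ne_zero hj0, fun i => rfl, j, ?_⟩
  · rw [← ValuationSubring.valuation_le_one_iff, map_mul, map_inv₀]
    have h1 := hj i (Finset.mem_univ i)
    have h2 : O.valuation (z j) ≠ 0 := (Valuation.ne_zero_iff _).2 hj0
    exact inv_mul_le_one_of_le₀ h1 zero_le
  · apply Subtype.ext
    exact inv_mul_cancel₀ hj0

theorem contra {F : Type*} [Field F] (O : ValuationSubring F) {n q r : ℕ} (hn : 2 ≤ n) (hr : 1 ≤ r)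
    (hq : r * n + 2 ≤ q) (ℓ : Fin q → Fin (n + 1) → O) (A V : Finset (Fin q)) (ι : Fin q → Fin q)
    (hAc : A.card + 1 = n) (hV : V.Nonempty) (hiA : ∀ i ∈ V, i ∉ A) (hιA : ∀ i ∈ V, ι i ∉ A)
    (hVV : ∀ i ∈ V, ∀ j ∈ V, i ≠ ι j) (hinj : ∀ i ∈ V, ∀ j ∈ V, ι i = ι j → i = j)
    (hL : ∀ B : Fin (n + 1) → Fin q, Function.Injective B →
      (∀ i ∈ V, ∃ a, B a ∉ insert i (insert (ι i) A)) → IsUnit (Matrix.of fun a j => ℓ (B a) j).det)
    (hdep : ∀ i ∈ V, ∀ B : Fin (n + 1) → Fin q, Function.Injective B →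
      (∀ a, B a ∈ insert i (insert (ι i) A)) → ¬ IsUnit (Matrix.of fun a j => ℓ (B a) j).det)
    (σ₀ : Fin r) (x : Fin q → Fin r → Fin (n + 1) → F) (c : Fin q → F)
    (h0 : ∀ i ∈ V, ∀ h ∈ insert i A, ∑ j, (ℓ h j : F) * x i σ₀ j = 0)
    (h1 : ∀ i ∈ V, ∀ g, (∀ j ∈ V, g ≠ ι j) → ∃ σ, ∑ j, (ℓ g j : F) * x i σ j = 0)
    (h2 : ∀ i ∈ V, ∀ m ∈ V, ∏ σ, ∑ j, (ℓ (ι m) j : F) * x i σ j = c (ι m)) (hc : ∀ m ∈ V, c (ι m) ≠ 0) :
    False := by
  classical
  have hx0 : ∀ i ∈ V, ∀ σ, x i σ ≠ 0 := by
    intro i hi σ h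
    apply hc i hi
    rw [← h2 i hi i hi]
    refine Finset.prod_eq_zero (Finset.mem_univ σ) ?_
    rw [h]
    simp
  -- the strict decrease
  have key : ∀ i ∈ V, ∃ m ∈ V, O.valuation (c (ι i)) < O.valuation (c (ι m)) := by
    intro i hi
    choose t z ht hz hz1 using fun σ => prim O (x i σ) (hx0 i hi σ)
    set κ := IsLocalRing.ResidueField O
    let π : O →+* κ := IsLocalRing.residue O
    let L : Fin q → Fin (n + 1) → κ := fun g j => π (ℓ g j)
    let y : Fin r → Fin (n + 1) → κ := fun σ j => π (z σ j)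
    have hy : ∀ σ, y σ ≠ 0 := by
      intro σ h
      obtain ⟨j, hj⟩ := hz1 σ
      have := congrFun h j
      simp only [y, hj, map_one, Pi.zero_apply] at this
      exact one_ne_zero this
    have hdet : ∀ B : Fin (n + 1) → Fin q, (Matrix.of fun a j => L (B a) j).det =
        π (Matrix.of fun a j => ℓ (B a) j).det := by
      intro B
      rw [RingHom.map_det]
      rfl
    have hLκ : ∀ B : Fin (n + 1) → Fin q, Function.Injective B →
        (∀ i ∈ V, ∃ a, B a ∉ insert i (insert (ι i) A)) → (Matrix.of fun a j => L (B a) j).det ≠ 0 := by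
      intro B hB hB'
      rw [hdet]
      exact (hL B hB hB').map π |>.ne_zero
    have hdκ : ∀ B : Fin (n + 1) → Fin q, Function.Injective B →
        (∀ a, B a ∈ insert i (insert (ι i) A)) → (Matrix.of fun a j => L (B a) j).det = 0 := by
      intro B hB hB'
      rw [hdet]
      have := hdep i hi B hB hB'
      rw [← mem_nonunits_iff, ← IsLocalRing.mem_maximalIdeal] at this
      exact Ideal.Quotient.eq_zero_iff_mem.2 this
    -- values
    have hval : ∀ g σ, ((ℓ g ⬝ᵥ z σ : O) : F) = t σ * ∑ j, (ℓ g j : F) * x i σ j := by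
      intro g σ
      rw [dotProduct, Finset.mul_sum]
      push_cast
      refine Finset.sum_congr rfl fun j _ => ?_
      rw [hz]
      ring
    have hLy : ∀ g σ, L g ⬝ᵥ y σ = π (ℓ g ⬝ᵥ z σ) := by
      intro g σ
      simp only [dotProduct, L, y, map_sum, map_mul]
    -- the hyperplanes met
    set Z : Fin r → Finset (Fin q) := fun σ => univ.filter fun g => L g ⬝ᵥ y σ = 0 with hZdef
    have hcount := union_card hn A hAc Z fun σ =>
      zeros_card L A V (Finset.card_pos.1 (by omega)) ι hAc hLκ (y σ) (hy σ)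
    have hout : ∀ g, (∀ j ∈ V, g ≠ ι j) → g ∈ univ.biUnion Z := by
      intro g hg
      obtain ⟨σ, hσ⟩ := h1 i hi g hg
      refine Finset.mem_biUnion.2 ⟨σ, Finset.mem_univ _, Finset.mem_filter.2 ⟨Finset.mem_univ _, ?_⟩⟩
      rw [hLy]
      have : ℓ g ⬝ᵥ z σ = 0 := by
        apply Subtype.ext
        rw [hval, hσ]
        simp
      rw [this, map_zero]
    obtain ⟨g, hg⟩ : ∃ g, g ∉ univ.biUnion Z := by
      by_contra hcon
      push Not at hcon
      have h3 : (univ : Finset (Fin q)) ⊆ univ.biUnion Z := fun g _ => hcon g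
      have h4 := Finset.card_le_card h3
      rw [Finset.card_univ, Fintype.card_fin] at h4
      omega
    obtain ⟨m, hm, rfl⟩ : ∃ m ∈ V, g = ι m := by
      by_contra hcon
      push Not at hcon
      exact hg (hout g hcon)
    refine ⟨m, hm, ?_⟩
    -- `ι m` is not met
    have hprod : ∀ g, ((∏ σ, (ℓ g ⬝ᵥ z σ) : O) : F) = (∏ σ, t σ) * ∏ σ, ∑ j, (ℓ g j : F) * x i σ j := by
      intro g
      rw [← Finset.prod_mul_distrib]
      push_cast
      exact Finset.prod_congr rfl fun σ _ => hval g σ
    have hunit : IsUnit (∏ σ, (ℓ (ι m) ⬝ᵥ z σ)) := by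
      rw [← IsLocalRing.residue_ne_zero_iff_isUnit, map_prod]
      refine Finset.prod_ne_zero_iff.2 fun σ _ h3 => hg ?_
      refine Finset.mem_biUnion.2 ⟨σ, Finset.mem_univ _, Finset.mem_filter.2 ⟨Finset.mem_univ _, ?_⟩⟩
      rw [hLy]
      exact h3
    have hnon : ¬ IsUnit (∏ σ, (ℓ (ι i) ⬝ᵥ z σ)) := by
      rw [← IsLocalRing.residue_ne_zero_iff_isUnit, map_prod, not_not]
      refine Finset.prod_eq_zero (Finset.mem_univ σ₀) ?_
      have h3 := inc (by nlinarith) L A V ι hAc hLκ i hi (hiA i hi) (hιA i hi) (fun h => hVV i hi i hi h.symm)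
        (fun i' hi' hne => ⟨fun h => hne (hinj i hi i' hi' h), hVV i hi i' hi'⟩) hdκ (y σ₀) (by
          intro h hh
          rw [hLy]
          have : ℓ h ⬝ᵥ z σ₀ = 0 := by
            apply Subtype.ext
            rw [hval, h0 i hi h hh]
            simp
          rw [this, map_zero])
      rw [hLy] at h3
      exact h3
    have hT : (∏ σ, t σ) ≠ 0 := Finset.prod_ne_zero_iff.2 fun σ _ => ht σ
    rw [ValuationSubring.valuation_eq_one_iff O, hprod, h2 i hi m hm, map_mul] at hunit
    have hnon' : O.valuation ((∏ σ, t σ) * c (ι i)) < 1 := by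
      rw [← h2 i hi i hi, ← hprod, ← ValuationSubring.valuation_lt_one_iff]
      exact (IsLocalRing.mem_maximalIdeal _).2 hnon
    rw [map_mul] at hnon'
    by_contra hcon
    push Not at hcon
    have h4 := mul_le_mul_right hcon (O.valuation (∏ σ, t σ))
    rw [hunit] at h4
    exact absurd hnon' (not_lt.2 h4)
  obtain ⟨i, hi, hmax⟩ := Finset.exists_max_image V (fun i => O.valuation (c (ι i))) hV
  obtain ⟨m, hm, hlt⟩ := key i hi
  exact absurd (hmax m hm) (not_le.2 hlt)

end Pool.Agent.Helper97.GH
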