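import Mathlib

/-!
# GH, block B3: a valuation ring with prescribed centre
-/

set_option autoImplicit false

namespace Pool.Agent.Helper97.GH

theorem exists_val {R : Type*} [CommRing R] {K : Type*} [Field K] (f : R →+* K) (P : Ideal R) [P.IsPrime]
    (hf : RingHom.ker f ≤ P) :
    ∃ O : ValuationSubring K, ∃ h : ∀ x, f x ∈ O, ∀ x, IsUnit (⟨f x, h x⟩ : O) ↔ x ∉ P := by
  have hs : Function.Surjective f.rangeRestrict := f.rangeRestrict_surjective
  have hk : RingHom.ker f.rangeRestrict ≤ P := by
    intro x hx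
    exact hf (congrArg Subtype.val hx)
  have : (P.map f.rangeRestrict).IsPrime := Ideal.map_isPrime_of_surjective hs hk
  have hmem : ∀ x, f.rangeRestrict x ∈ P.map f.rangeRestrict ↔ x ∈ P := by
    intro x
    constructor
    · intro h
      obtain ⟨y, hy, hxy⟩ := (Ideal.mem_map_iff_of_surjective _ hs).1 h
      have h1 : x - y ∈ P := hk (by rw [RingHom.mem_ker, map_sub, hxy, sub_self])
      have := P.add_mem h1 hy
      rwa [sub_add_cancel] at this
    · exact Ideal.mem_map_of_mem _
  obtain ⟨O, hO1, hO2⟩ := (LocalSubring.ofPrime f.range (P.map f.rangeRestrict)).exists_le_valuationSubring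
  have hle : f.range ≤ O.toSubring := (LocalSubring.le_ofPrime _ _).trans hO1
  have hin : ∀ x, f x ∈ O := fun x => hle ⟨x, rfl⟩
  refine ⟨O, hin, fun x => ?_⟩
  have h1 : IsUnit (algebraMap f.range (LocalSubring.ofPrime f.range (P.map f.rangeRestrict)).toSubring
      (f.rangeRestrict x)) ↔ x ∉ P := by
    rw [IsLocalization.AtPrime.isUnit_to_map_iff _ (P.map f.rangeRestrict), Ideal.mem_primeCompl_iff, hmem]
  rw [← h1]
  constructor
  · intro h
    refine hO2.map_nonunit _ ?_
    exact h
  · intro h
    exact h.map (Subring.inclusion hO1)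

end Pool.Agent.Helper97.GH
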