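import Mathlib

/-!
# GH, block B4: elimination

A finite or infinite system `E` of polynomial equations over `ℤ` in variables `a` and `b`: either some nonzero polynomial in the `a` alone is in the
ideal of `E`, or the system has a solution in a field with `a` algebraically independent.
-/

set_option autoImplicit false

namespace Pool.Agent.Helper97.GH

open MvPolynomial

theorem elim {α β : Type} (E : Set (MvPolynomial (α ⊕ β) ℤ)) :
    (∃ Φ : MvPolynomial α ℤ, Φ ≠ 0 ∧ rename Sum.inl Φ ∈ Ideal.span E) ∨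
    ∃ (K : Type) (_ : Field K) (a : α → K) (b : β → K),
      (∀ p ∈ E, aeval (Sum.elim a b) p = 0) ∧ AlgebraicIndependent ℤ a := by
  classical
  by_cases h : ∃ Φ : MvPolynomial α ℤ, Φ ≠ 0 ∧ rename Sum.inl Φ ∈ Ideal.span E
  · exact Or.inl h
  right
  push Not at h
  let S : Submonoid (MvPolynomial (α ⊕ β) ℤ) :=
    (nonZeroDivisors (MvPolynomial α ℤ)).map (rename (Sum.inl : α → α ⊕ β)).toRingHom.toMonoidHom
  obtain ⟨p, hp, hle, hdis⟩ := Ideal.exists_le_prime_disjoint (Ideal.span E) S (by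
    rw [Set.disjoint_left]
    rintro _ hx ⟨Φ, hΦ, rfl⟩
    exact h Φ (nonZeroDivisors.ne_zero hΦ) hx)
  obtain ⟨K, hK, f, hker⟩ : ∃ (K : Type) (_ : Field K) (f : MvPolynomial (α ⊕ β) ℤ →+* K),
      ∀ P, f P = 0 ↔ P ∈ p := by
    have : IsDomain (MvPolynomial (α ⊕ β) ℤ ⧸ p) := Ideal.Quotient.isDomain p
    refine ⟨FractionRing (MvPolynomial (α ⊕ β) ℤ ⧸ p), inferInstance,
      (algebraMap (MvPolynomial (α ⊕ β) ℤ ⧸ p) _).comp (Ideal.Quotient.mk p), fun P => ?_⟩
    rw [RingHom.comp_apply, map_eq_zero_iff _ (IsFractionRing.injective _ _)]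
    exact Ideal.Quotient.eq_zero_iff_mem
  have hf : ∀ P, aeval (Sum.elim (fun i => f (X (Sum.inl i))) fun i => f (X (Sum.inr i))) P = f P := by
    intro P
    have : (aeval (Sum.elim (fun i => f (X (Sum.inl i))) fun i => f (X (Sum.inr i))) :
        MvPolynomial (α ⊕ β) ℤ →ₐ[ℤ] K).toRingHom = f := by
      apply MvPolynomial.ringHom_ext
      · intro r
        simp
      · rintro (i | i) <;> simp
    exact congrArg (fun g : MvPolynomial (α ⊕ β) ℤ →+* K => g P) this
  refine ⟨K, hK, fun i => f (X (Sum.inl i)), fun i => f (X (Sum.inr i)), ?_, ?_⟩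
  · intro P hP
    rw [hf]
    exact (hker _).2 (hle (Ideal.subset_span hP))
  · rw [algebraicIndependent_iff]
    intro Φ hΦ
    by_contra hne
    have h1 : f (rename Sum.inl Φ) = 0 := by
      rw [← hf, aeval_rename]
      exact hΦ
    exact Set.disjoint_left.1 hdis ((hker _).1 h1) ⟨Φ, mem_nonZeroDivisors_of_ne_zero hne, rfl⟩

/-- The polynomial vanishes at all solutions. -/
theorem elim_eval {α β : Type} (E : Set (MvPolynomial (α ⊕ β) ℤ)) (Φ : MvPolynomial α ℤ)
    (hΦ : rename Sum.inl Φ ∈ Ideal.span E) {K : Type*} [Field K] (a : α → K) (b : β → K)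
    (h : ∀ p ∈ E, aeval (Sum.elim a b) p = 0) : aeval a Φ = 0 := by
  have h1 : Ideal.span E ≤ RingHom.ker (aeval (Sum.elim a b) : MvPolynomial (α ⊕ β) ℤ →ₐ[ℤ] K) := by
    rw [Ideal.span_le]
    intro p hp
    exact h p hp
  have h2 : aeval (Sum.elim a b) (rename Sum.inl Φ) = 0 := h1 hΦ
  rw [aeval_rename] at h2
  exact h2

end Pool.Agent.Helper97.GH
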