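import Mathlib

/-!
# GH, block B2: an arrangement with prescribed dependent sets

The vectors `(1, t, …, t ^ (n - 1), t ^ (n + 1))` of `n + 1` different values of `t` are dependent iff the sum of the `t` is `0`.
-/

set_option autoImplicit false

namespace Pool.Agent.Helper97.GH

open Finset Matrix

/-- The exponents `0, …, n - 1, n + 1`. -/
def ee (n : ℕ) (j : Fin (n + 1)) : ℕ := if (j : ℕ) < n then j else n + 1

theorem ee_inj (n : ℕ) : Function.Injective (ee n) := by
  intro i j h
  have hi := i.2
  have hj := j.2
  unfold ee at h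
  apply Fin.ext
  split_ifs at h <;> omega

theorem ee_ne (n : ℕ) (j : Fin (n + 1)) : ee n j ≠ n := by
  unfold ee
  split_ifs <;> omega

theorem ee_le (n : ℕ) (j : Fin (n + 1)) : ee n j ≤ n + 1 := by
  unfold ee
  split_ifs <;> omega

theorem ee_lt (n : ℕ) (j : Fin (n + 1)) (h : j ≠ Fin.last n) : ee n j < n := by
  have : (j : ℕ) < n := by
    have h1 := j.2
    have h2 : (j : ℕ) ≠ n := fun h3 => h (Fin.ext h3)
    omega
  unfold ee
  rw [if_pos this]
  exact this

theorem ee_last (n : ℕ) : ee n (Fin.last n) = n + 1 := by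
  unfold ee
  rw [if_neg]
  simp

/-- The vector. -/
def vec {D : Type*} [CommRing D] (n : ℕ) (t : D) : Fin (n + 1) → D := fun j => t ^ ee n j

section
variable {D : Type*} [CommRing D] {n : ℕ}

/-- The polynomial with coefficients `w`. -/
noncomputable def pol (w : Fin (n + 1) → D) : Polynomial D := ∑ j, Polynomial.C (w j) * Polynomial.X ^ ee n j

theorem pol_eval (w : Fin (n + 1) → D) (t : D) : (pol w).eval t = vec n t ⬝ᵥ w := by
  rw [pol, Polynomial.eval_finsetSum, dotProduct]
  refine Finset.sum_congr rfl fun j _ => ?_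
  rw [Polynomial.eval_mul, Polynomial.eval_C, Polynomial.eval_pow, Polynomial.eval_X, vec]
  ring

theorem pol_coeff (w : Fin (n + 1) → D) (m : ℕ) : (pol w).coeff m = ∑ j, if m = ee n j then w j else 0 := by
  rw [pol, Polynomial.finsetSum_coeff]
  refine Finset.sum_congr rfl fun j _ => ?_
  rw [Polynomial.coeff_C_mul_X_pow]

theorem pol_coeff_ee (w : Fin (n + 1) → D) (j : Fin (n + 1)) : (pol w).coeff (ee n j) = w j := by
  rw [pol_coeff, Finset.sum_eq_single j]
  · rw [if_pos rfl]
  · intro i _ hij
    rw [if_neg]
    intro h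
    exact hij (ee_inj n h).symm
  · intro h
    exact absurd (Finset.mem_univ j) h

theorem pol_coeff_n (w : Fin (n + 1) → D) : (pol w).coeff n = 0 := by
  rw [pol_coeff]
  refine Finset.sum_eq_zero fun j _ => ?_
  rw [if_neg (ee_ne n j).symm]

theorem pol_natDegree (w : Fin (n + 1) → D) : (pol w).natDegree ≤ n + 1 := by
  rw [Polynomial.natDegree_le_iff_coeff_eq_zero]
  intro m hm
  rw [pol_coeff]
  refine Finset.sum_eq_zero fun j _ => ?_
  rw [if_neg]
  have := ee_le n j
  omega

theorem det_vec [IsDomain D] (t : Fin (n + 1) → D) (ht : Function.Injective t) :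
    (Matrix.of fun a j => vec n (t a) j).det = 0 ↔ ∑ a, t a = 0 := by
  classical
  set F : Polynomial D := ∏ a, (Polynomial.X - Polynomial.C (t a)) with hF
  have hFdeg : F.natDegree = n + 1 := by
    rw [hF, Polynomial.natDegree_finsetProd_X_sub_C_eq_card]
    simp
  have hFmonic : F.Monic := Polynomial.monic_prod_of_monic _ _ fun a _ => Polynomial.monic_X_sub_C _
  have hFn : F.coeff n = - ∑ a, t a := by
    have := Polynomial.prod_X_sub_C_coeff_card_pred (univ : Finset (Fin (n + 1))) t (by simp)
    simpa using this
  rw [← Matrix.exists_mulVec_eq_zero_iff]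
  constructor
  · rintro ⟨w, hw0, hw⟩
    have hroot : ∀ a, (pol w).eval (t a) = 0 := by
      intro a
      rw [pol_eval]
      exact congrFun hw a
    have hlast : w (Fin.last n) ≠ 0 := by
      intro h
      have hz : pol w = 0 := by
        refine Polynomial.eq_zero_of_natDegree_lt_card_of_eval_eq_zero (pol w) ht hroot ?_
        rw [Fintype.card_fin]
        refine Nat.lt_succ_of_le ?_
        rw [Polynomial.natDegree_le_iff_coeff_eq_zero]
        intro m hm
        rw [pol_coeff]
        refine Finset.sum_eq_zero fun j _ => ?_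
        by_cases hj : j = Fin.last n
        · subst hj
          rw [h]
          simp
        · rw [if_neg]
          have := ee_lt n j hj
          omega
      apply hw0
      funext j
      rw [← pol_coeff_ee w j, hz]
      simp
    have hz : pol w - Polynomial.C (w (Fin.last n)) * F = 0 := by
      refine Polynomial.eq_zero_of_natDegree_lt_card_of_eval_eq_zero _ ht ?_ ?_
      · intro a
        rw [Polynomial.eval_sub, hroot, Polynomial.eval_mul, hF, Polynomial.eval_prod,
          Finset.prod_eq_zero (Finset.mem_univ a) (by simp)]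
        ring
      · rw [Fintype.card_fin]
        refine Nat.lt_succ_of_le ?_
        rw [Polynomial.natDegree_le_iff_coeff_eq_zero]
        intro m hm
        rw [Polynomial.coeff_sub, Polynomial.coeff_C_mul]
        rcases (show n + 1 ≤ m from hm).eq_or_lt with h | h
        · subst h
          have h1 : F.coeff (n + 1) = 1 := by
            rw [← hFdeg]
            exact hFmonic
          have h2 := pol_coeff_ee w (Fin.last n)
          rw [ee_last] at h2
          rw [h1, h2]
          ring
        · rw [Polynomial.coeff_eq_zero_of_natDegree_lt ((pol_natDegree w).trans_lt h),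
            Polynomial.coeff_eq_zero_of_natDegree_lt (hFdeg.trans_lt h)]
          ring
    have h1 := congrArg (fun P : Polynomial D => P.coeff n) hz
    simp only [Polynomial.coeff_sub, Polynomial.coeff_C_mul, pol_coeff_n, hFn, Polynomial.coeff_zero] at h1
    have h2 : w (Fin.last n) * ∑ a, t a = 0 := by linear_combination h1
    exact (mul_eq_zero.1 h2).resolve_left hlast
  · intro hsum
    refine ⟨fun j => F.coeff (ee n j), ?_, ?_⟩
    · intro h
      have h1 := congrFun h (Fin.last n)
      simp only [ee_last, Pi.zero_apply] at h1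
      have h2 : F.coeff (n + 1) = 1 := by
        rw [← hFdeg]
        exact hFmonic
      rw [h2] at h1
      exact one_ne_zero h1
    · have hpol : pol (fun j => F.coeff (ee n j)) = F := by
        ext m
        rw [pol_coeff]
        by_cases hm : ∃ j : Fin (n + 1), m = ee n j
        · obtain ⟨j, rfl⟩ := hm
          rw [Finset.sum_eq_single j]
          · rw [if_pos rfl]
          · intro i _ hij
            rw [if_neg]
            intro h
            exact hij (ee_inj n h).symm
          · intro h
            exact absurd (Finset.mem_univ j) h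
        · push Not at hm
          rw [Finset.sum_eq_zero fun j _ => if_neg (hm j)]
          by_cases hmn : m = n
          · rw [hmn, hFn, hsum, neg_zero]
          · refine (Polynomial.coeff_eq_zero_of_natDegree_lt ?_).symm
            rw [hFdeg]
            by_contra hcon
            push Not at hcon
            rcases lt_or_gt_of_ne hmn with h | h
            · refine hm ⟨m, by omega⟩ ?_
              unfold ee
              rw [if_pos h]
            · refine hm (Fin.last n) ?_
              rw [ee_last]
              omega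
      funext a
      show vec n (t a) ⬝ᵥ (fun j => F.coeff (ee n j)) = 0
      rw [← pol_eval, hpol, hF, Polynomial.eval_prod, Finset.prod_eq_zero (Finset.mem_univ a) (by simp)]

end

theorem arr {n q : ℕ} (A V : Finset (Fin q)) (ι : Fin q → Fin q)
    (hAc : A.card + 1 = n) (hn : 2 ≤ n) (hiA : ∀ i ∈ V, i ∉ A) (hιA : ∀ i ∈ V, ι i ∉ A)
    (hVV : ∀ i ∈ V, ∀ j ∈ V, i ≠ ι j) (hinj : ∀ i ∈ V, ∀ j ∈ V, ι i = ι j → i = j) :
    ∃ (D : Type) (_ : CommRing D) (_ : IsDomain D) (m : Fin q → Fin (n + 1) → D),
      (∀ B : Fin (n + 1) → Fin q, Function.Injective B →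
        (∀ i ∈ V, ∃ a, B a ∉ insert i (insert (ι i) A)) → (Matrix.of fun a j => m (B a) j).det ≠ 0) ∧
      (∀ i ∈ V, ∀ B : Fin (n + 1) → Fin q, Function.Injective B →
        (∀ a, B a ∈ insert i (insert (ι i) A)) → (Matrix.of fun a j => m (B a) j).det = 0) := by
  classical
  -- the value at `v` of the linear form of `g`
  let τ : (Fin q → ℤ) → Fin q → ℤ := fun v g =>
    if h : ∃ i ∈ V, g = ι i then - v h.choose - ∑ a ∈ A, v a else v g
  let t : Fin q → MvPolynomial (Fin q) ℤ := fun g =>
    if h : ∃ i ∈ V, g = ι i then - MvPolynomial.X h.choose - ∑ a ∈ A, MvPolynomial.X a else MvPolynomial.X g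
  have hτ : ∀ v g, MvPolynomial.eval v (t g) = τ v g := by
    intro v g
    simp only [t, τ]
    split_ifs with h
    · simp
    · simp
  have hchoose : ∀ i ∈ V, ∀ h : ∃ i' ∈ V, ι i = ι i', h.choose = i := fun i hi h =>
    hinj _ h.choose_spec.1 _ hi h.choose_spec.2.symm
  have tι : ∀ i ∈ V, t (ι i) = - MvPolynomial.X i - ∑ a ∈ A, MvPolynomial.X a := by
    intro i hi
    have h : ∃ i' ∈ V, ι i = ι i' := ⟨i, hi, rfl⟩
    simp only [t]
    rw [dif_pos h, hchoose i hi h]
  have tg : ∀ g, (∀ i ∈ V, g ≠ ι i) → t g = MvPolynomial.X g := by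
    intro g hg
    simp only [t]
    rw [dif_neg]
    rintro ⟨i, hi, h⟩
    exact hg i hi h
  have τι : ∀ v, ∀ i ∈ V, τ v (ι i) = - v i - ∑ a ∈ A, v a := by
    intro v i hi
    rw [← hτ, tι i hi]
    simp
  have τg : ∀ v g, (∀ i ∈ V, g ≠ ι i) → τ v g = v g := by
    intro v g hg
    rw [← hτ, tg g hg]
    simp
  have hAι : ∀ a ∈ A, ∀ i ∈ V, a ≠ ι i := fun a ha i hi h => hιA i hi (h ▸ ha)
  have sumA : ∀ g, ∑ a ∈ A, (Pi.single g (1 : ℤ) : Fin q → ℤ) a = if g ∈ A then 1 else 0 := by
    intro g
    simp only [Pi.single_apply]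
    rw [Finset.sum_ite_eq']
  -- different
  have hdist : Function.Injective t := by
    intro g g' h
    by_cases hg : ∃ i ∈ V, g = ι i
    · obtain ⟨i, hi, rfl⟩ := hg
      by_cases hg' : ∃ i ∈ V, g' = ι i
      · obtain ⟨i', hi', rfl⟩ := hg'
        rw [tι i hi, tι i' hi'] at h
        have h1 : (MvPolynomial.X i : MvPolynomial (Fin q) ℤ) = MvPolynomial.X i' := by linear_combination -h
        rw [MvPolynomial.X_injective h1]
      · push Not at hg'
        exfalso
        have h1 := congrArg (MvPolynomial.eval (Pi.single i (1 : ℤ) : Fin q → ℤ)) h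
        rw [hτ, hτ, τι _ i hi, τg _ g' hg', sumA, if_neg (hiA i hi), Pi.single_eq_same, Pi.single_apply] at h1
        split_ifs at h1 <;> omega
    · push Not at hg
      by_cases hg' : ∃ i ∈ V, g' = ι i
      · obtain ⟨i', hi', rfl⟩ := hg'
        exfalso
        have h1 := congrArg (MvPolynomial.eval (Pi.single i' (1 : ℤ) : Fin q → ℤ)) h
        rw [hτ, hτ, τι _ i' hi', τg _ g hg, sumA, if_neg (hiA i' hi'), Pi.single_eq_same, Pi.single_apply] at h1
        split_ifs at h1 <;> omega
      · push Not at hg'
        rw [tg g hg, tg g' hg'] at h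
        exact MvPolynomial.X_injective h
  refine ⟨MvPolynomial (Fin q) ℤ, inferInstance, inferInstance, fun g => vec n (t g), ?_, ?_⟩
  · intro B hB hB' hdet
    rw [det_vec (fun a => t (B a)) (hdist.comp hB)] at hdet
    -- the coefficient of `g`
    have hco : ∀ g, ∑ a, τ (Pi.single g 1) (B a) = 0 := by
      intro g
      have := congrArg (MvPolynomial.eval (Pi.single g (1 : ℤ) : Fin q → ℤ)) hdet
      rw [map_sum, map_zero] at this
      rw [← this]
      exact Finset.sum_congr rfl fun a _ => (hτ _ _).symm
    let T : Finset (Fin (n + 1)) := univ.filter fun a => ∃ i ∈ V, B a = ι i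
    have hval : ∀ g a, (∀ i ∈ V, B a ≠ ι i) → τ (Pi.single g 1) (B a) = if B a = g then 1 else 0 := by
      intro g a ha
      rw [τg _ _ ha, Pi.single_apply]
    obtain ⟨h, hh⟩ : A.Nonempty := Finset.card_pos.1 (by omega)
    -- `A`
    have hAcount : ∀ h ∈ A, (∑ a, if B a = h then (1 : ℤ) else 0) = T.card := by
      intro h hh
      have h1 := hco h
      have h2 : ∀ a, τ (Pi.single h 1) (B a) = (if B a = h then (1 : ℤ) else 0) - if a ∈ T then 1 else 0 := by
        intro a
        by_cases ha : ∃ i ∈ V, B a = ι i
        · rw [if_pos (show a ∈ T from Finset.mem_filter.2 ⟨Finset.mem_univ _, ha⟩)]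
          obtain ⟨i, hi, hai⟩ := ha
          rw [hai, τι _ i hi, sumA, if_pos hh, if_neg (fun h3 => hAι h hh i hi h3.symm), Pi.single_apply, if_neg]
          · ring
          · rintro rfl
            exact hiA _ hi hh
        · rw [if_neg (show a ∉ T from fun h3 => ha (Finset.mem_filter.1 h3).2)]
          push Not at ha
          rw [hval _ _ ha, sub_zero]
      rw [Finset.sum_congr rfl fun a _ => h2 a, Finset.sum_sub_distrib] at h1
      have h3 : (∑ a, if a ∈ T then (1 : ℤ) else 0) = T.card := by
        rw [Finset.sum_boole]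
        simp
      rw [h3] at h1
      linarith
    have hle1 : ∀ h, (∑ a, if B a = h then (1 : ℤ) else 0) ≤ 1 := by
      intro h
      rw [Finset.sum_boole]
      have : (univ.filter fun a => B a = h).card ≤ 1 := by
        rw [Finset.card_le_one]
        intro a ha b hb
        exact hB ((Finset.mem_filter.1 ha).2.trans (Finset.mem_filter.1 hb).2.symm)
      exact_mod_cast this
    have hT1 : T.card ≤ 1 := by
      have h1 := hAcount h hh
      have h2 := hle1 h
      rw [h1] at h2
      exact_mod_cast h2
    have hTne : T.Nonempty := by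
      by_contra hne
      rw [Finset.not_nonempty_iff_eq_empty] at hne
      have hall : ∀ a, ∀ i ∈ V, B a ≠ ι i := by
        intro a i hi h3
        have : a ∈ T := Finset.mem_filter.2 ⟨Finset.mem_univ _, i, hi, h3⟩
        rw [hne] at this
        exact absurd this (Finset.notMem_empty a)
      have h1 := hco (B 0)
      rw [Finset.sum_congr rfl fun a _ => hval (B 0) a (hall a), Finset.sum_eq_single (0 : Fin (n + 1))] at h1
      · simp at h1
      · intro a _ ha
        rw [if_neg]
        exact fun h3 => ha (hB h3)
      · intro h3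
        exact absurd (Finset.mem_univ _) h3
    obtain ⟨a₀, ha₀⟩ := hTne
    obtain ⟨i, hi, hai⟩ := (Finset.mem_filter.1 ha₀).2
    have hTeq : ∀ a, a ≠ a₀ → ∀ i ∈ V, B a ≠ ι i := by
      intro a ha i' hi' h3
      have : a ∈ T := Finset.mem_filter.2 ⟨Finset.mem_univ _, i', hi', h3⟩
      exact ha (Finset.card_le_one.1 hT1 a this a₀ ha₀)
    obtain ⟨a₁, ha₁⟩ := hB' i hi
    have ha10 : a₁ ≠ a₀ := by
      rintro rfl
      apply ha₁
      rw [hai]
      exact Finset.mem_insert_of_mem (Finset.mem_insert_self _ _)
    have h1 := hco (B a₁)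
    rw [← Finset.add_sum_erase _ _ (Finset.mem_univ a₀), hai, τι _ i hi, sumA, if_neg, Pi.single_apply, if_neg,
      Finset.sum_congr rfl fun a ha => hval (B a₁) a (hTeq a (Finset.ne_of_mem_erase ha)),
      Finset.sum_eq_single a₁] at h1
    · simp at h1
    · intro a _ ha
      rw [if_neg]
      exact fun h3 => ha (hB h3)
    · intro h3
      exact absurd (Finset.mem_erase.2 ⟨ha10, Finset.mem_univ _⟩) h3
    · rintro rfl
      exact ha₁ (Finset.mem_insert_self _ _)
    · intro h3
      exact ha₁ (Finset.mem_insert_of_mem (Finset.mem_insert_of_mem h3))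
  · intro i hi B hB hB'
    rw [det_vec (fun a => t (B a)) (hdist.comp hB)]
    have hS : (insert i (insert (ι i) A)).card = n + 1 := by
      rw [Finset.card_insert_of_notMem, Finset.card_insert_of_notMem (hιA i hi)]
      · omega
      · intro h
        rcases Finset.mem_insert.1 h with h | h
        · exact hVV i hi i hi h
        · exact hiA i hi h
    have himg : univ.image B = insert i (insert (ι i) A) := by
      refine Finset.eq_of_subset_of_card_le ?_ ?_
      · intro g hg
        obtain ⟨a, -, rfl⟩ := Finset.mem_image.1 hg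
        exact hB' a
      · rw [hS, Finset.card_image_of_injective _ hB, Finset.card_univ, Fintype.card_fin]
    have : ∑ a, t (B a) = ∑ g ∈ insert i (insert (ι i) A), t g := by
      rw [← himg, Finset.sum_image fun a _ b _ h => hB h]
    rw [this, Finset.sum_insert, Finset.sum_insert (hιA i hi), tι i hi, tg i (hVV i hi),
      Finset.sum_congr rfl fun a ha => tg a (hAι a ha)]
    · ring
    · intro h
      rcases Finset.mem_insert.1 h with h | h
      · exact hVV i hi i hi h
      · exact hiA i hi h

end Pool.Agent.Helper97.GH
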