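import Pool.Agent.Helper97.GH.Contra
import Pool.Agent.Helper97.GH.Elim
import Pool.Agent.Helper97.GH.Val
import Pool.Agent.Helper97.GH.Arr

/-!
# GH: bad arrangements lie in a hypersurface
-/

set_option autoImplicit false

namespace Pool.Agent.Helper97.GH

open MvPolynomial

/-- BAD arrangements. -/
def Bad {K : Type*} [Field K] {n q : ℕ} (r : ℕ) (A V : Finset (Fin q)) (ι : Fin q → Fin q)
    (ℓ : Fin q → Fin (n + 1) → K) : Prop :=
  ∃ (σ₀ : Fin r) (x : Fin q → Fin r → Fin (n + 1) → K) (c : Fin q → K),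
    (∀ i ∈ V, ∀ h ∈ insert i A, ∑ j, ℓ h j * x i σ₀ j = 0) ∧
    (∀ i ∈ V, ∀ g, (∀ j ∈ V, g ≠ ι j) → ∏ σ, ∑ j, ℓ g j * x i σ j = 0) ∧
    (∀ i ∈ V, ∀ m ∈ V, ∏ σ, ∑ j, ℓ (ι m) j * x i σ j = c (ι m)) ∧ ∀ m ∈ V, c (ι m) ≠ 0

/-- The combinatorial conditions. -/
structure Comb {q : ℕ} (n : ℕ) (A V : Finset (Fin q)) (ι : Fin q → Fin q) : Prop where
  card : A.card + 1 = n
  nonempty : V.Nonempty
  iA : ∀ i ∈ V, i ∉ A
  ιA : ∀ i ∈ V, ι i ∉ A
  VV : ∀ i ∈ V, ∀ j ∈ V, i ≠ ι j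
  inj : ∀ i ∈ V, ∀ j ∈ V, ι i = ι j → i = j

/-- An arrangement with algebraically independent coefficients is not bad. -/
theorem not_bad {K : Type} [Field K] {n q r : ℕ} (hn : 2 ≤ n) (hr : 1 ≤ r) (hq : r * n + 2 ≤ q)
    (A V : Finset (Fin q)) (ι : Fin q → Fin q) (h : Comb n A V ι) (a : Fin q × Fin (n + 1) → K)
    (ha : AlgebraicIndependent ℤ a) : ¬ Bad r A V ι (fun g j => a (g, j)) := by
  classical
  rintro ⟨σ₀, x, c, h0, h1, h2, hc⟩
  obtain ⟨D, _, _, m, hm1, hm2⟩ := arr A V ι h.card hn h.iA h.ιA h.VV h.inj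
  let f : MvPolynomial (Fin q × Fin (n + 1)) ℤ →+* K := (aeval a).toRingHom
  let ψ : MvPolynomial (Fin q × Fin (n + 1)) ℤ →+* D := (aeval fun p => m p.1 p.2).toRingHom
  have hP : (RingHom.ker ψ).IsPrime := RingHom.ker_isPrime ψ
  have hker : RingHom.ker f ≤ RingHom.ker ψ := by
    intro P hP
    have h3 : P = 0 := (algebraicIndependent_iff.1 ha) P hP
    rw [h3]
    exact Ideal.zero_mem _
  obtain ⟨O, hO, hu⟩ := exists_val f (RingHom.ker ψ) hker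
  let ℓ : Fin q → Fin (n + 1) → O := fun g j => ⟨f (X (g, j)), hO _⟩
  have hℓ : ∀ g j, (ℓ g j : K) = a (g, j) := by
    intro g j
    show aeval a (X (g, j)) = a (g, j)
    rw [aeval_X]
  let f' : MvPolynomial (Fin q × Fin (n + 1)) ℤ →+* O := f.codRestrict O hO
  have hdet : ∀ B : Fin (n + 1) → Fin q, (Matrix.of fun a j => ℓ (B a) j).det =
      ⟨f (Matrix.of fun a j => (X (B a, j) : MvPolynomial (Fin q × Fin (n + 1)) ℤ)).det, hO _⟩ := by
    intro B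
    have h3 : (Matrix.of fun a j => ℓ (B a) j) =
        f'.mapMatrix (Matrix.of fun a j => (X (B a, j) : MvPolynomial (Fin q × Fin (n + 1)) ℤ)) := rfl
    rw [h3, ← RingHom.map_det]
    rfl
  have hψ : ∀ B : Fin (n + 1) → Fin q,
      ψ (Matrix.of fun a j => (X (B a, j) : MvPolynomial (Fin q × Fin (n + 1)) ℤ)).det =
        (Matrix.of fun a j => m (B a) j).det := by
    intro B
    rw [RingHom.map_det]
    congr 1
    ext a j
    show aeval (fun p : Fin q × Fin (n + 1) => m p.1 p.2) (X (B a, j)) = _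
    rw [aeval_X]
    rfl
  refine contra O hn hr hq ℓ A V ι h.card h.nonempty h.iA h.ιA h.VV h.inj ?_ ?_ σ₀ x c ?_ ?_ ?_ hc
  · intro B hB hB'
    rw [hdet, hu, RingHom.mem_ker, hψ]
    exact hm1 B hB hB'
  · intro i hi B hB hB'
    rw [hdet, hu, RingHom.mem_ker, hψ, not_not]
    exact hm2 i hi B hB hB'
  · intro i hi g hg
    simp only [hℓ]
    exact h0 i hi g hg
  · intro i hi g hg
    simp only [hℓ]
    obtain ⟨σ, -, hσ⟩ := Finset.prod_eq_zero_iff.1 (h1 i hi g hg)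
    exact ⟨σ, hσ⟩
  · intro i hi m' hm'
    simp only [hℓ]
    exact h2 i hi m' hm'

/-- The equations of a bad arrangement. -/
def eqs {n q : ℕ} (r : ℕ) (A V : Finset (Fin q)) (ι : Fin q → Fin q) (σ₀ : Fin r) :
    Set (MvPolynomial ((Fin q × Fin (n + 1)) ⊕ ((Fin q × Fin r × Fin (n + 1)) ⊕ (Fin q ⊕ Fin q))) ℤ) :=
  {p | ∃ i ∈ V, ∃ h ∈ insert i A, p = ∑ j, X (Sum.inl (h, j)) * X (Sum.inr (Sum.inl (i, σ₀, j)))} ∪
  {p | ∃ i ∈ V, ∃ g, (∀ j ∈ V, g ≠ ι j) ∧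
    p = ∏ σ, ∑ j, X (Sum.inl (g, j)) * X (Sum.inr (Sum.inl (i, σ, j)))} ∪
  {p | ∃ i ∈ V, ∃ m ∈ V, p = ∏ σ, ∑ j, X (Sum.inl (ι m, j)) * X (Sum.inr (Sum.inl (i, σ, j))) -
    X (Sum.inr (Sum.inr (Sum.inl (ι m))))} ∪
  {p | ∃ m ∈ V, p = X (Sum.inr (Sum.inr (Sum.inl (ι m)))) * X (Sum.inr (Sum.inr (Sum.inr (ι m)))) - 1}

theorem bad_phi {n q r : ℕ} (hn : 2 ≤ n) (hr : 1 ≤ r) (hq : r * n + 2 ≤ q)
    (A V : Finset (Fin q)) (ι : Fin q → Fin q) (h : Comb n A V ι) :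
    ∃ Φ : MvPolynomial (Fin q × Fin (n + 1)) ℤ, Φ ≠ 0 ∧ ∀ (K : Type*) [Field K] (ℓ : Fin q → Fin (n + 1) → K),
      Bad r A V ι ℓ → aeval (fun p => ℓ p.1 p.2) Φ = 0 := by
  classical
  have key : ∀ σ₀ : Fin r, ∃ Φ : MvPolynomial (Fin q × Fin (n + 1)) ℤ, Φ ≠ 0 ∧
      rename Sum.inl Φ ∈ Ideal.span (eqs (n := n) r A V ι σ₀) := by
    intro σ₀
    rcases elim (eqs (n := n) r A V ι σ₀) with h1 | ⟨K, _, a, b, hab, ha⟩
    · exact h1
    · exfalso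
      refine not_bad hn hr hq A V ι h a ha ⟨σ₀, fun i σ j => b (Sum.inl (i, σ, j)),
        fun g => b (Sum.inr (Sum.inl g)), ?_, ?_, ?_, ?_⟩
      · intro i hi g hg
        have := hab _ (Or.inl (Or.inl (Or.inl ⟨i, hi, g, hg, rfl⟩)))
        simpa using this
      · intro i hi g hg
        have := hab _ (Or.inl (Or.inl (Or.inr ⟨i, hi, g, hg, rfl⟩)))
        simpa only [map_prod, map_sum, map_mul, aeval_X, Sum.elim_inl, Sum.elim_inr] using this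
      · intro i hi m hm
        have := hab _ (Or.inl (Or.inr ⟨i, hi, m, hm, rfl⟩))
        rw [map_sub, sub_eq_zero] at this
        simpa only [map_prod, map_sum, map_mul, aeval_X, Sum.elim_inl, Sum.elim_inr] using this
      · intro m hm h0
        have := hab _ (Or.inr ⟨m, hm, rfl⟩)
        simp only [map_sub, map_mul, aeval_X, Sum.elim_inr, map_one] at this
        have h0' : b (Sum.inr (Sum.inl (ι m))) = 0 := h0
        rw [h0', zero_mul, zero_sub, neg_eq_zero] at this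
        exact one_ne_zero this
  choose Φ hΦ0 hΦ using key
  refine ⟨∏ σ₀, Φ σ₀, Finset.prod_ne_zero_iff.2 fun σ₀ _ => hΦ0 σ₀, ?_⟩
  rintro K _ ℓ ⟨σ₀, x, c, h0, h1, h2, hc⟩
  rw [map_prod]
  refine Finset.prod_eq_zero (Finset.mem_univ σ₀) ?_
  refine elim_eval _ _ (hΦ σ₀) _ (Sum.elim (fun p => x p.1 p.2.1 p.2.2) (Sum.elim c fun g => (c g)⁻¹)) ?_
  rintro p (((⟨i, hi, g, hg, rfl⟩ | ⟨i, hi, g, hg, rfl⟩) | ⟨i, hi, m, hm, rfl⟩) | ⟨m, hm, rfl⟩)
  · simp only [map_sum, map_mul, aeval_X, Sum.elim_inl, Sum.elim_inr]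
    exact h0 i hi g hg
  · simp only [map_prod, map_sum, map_mul, aeval_X, Sum.elim_inl, Sum.elim_inr]
    exact h1 i hi g hg
  · rw [map_sub, sub_eq_zero]
    simp only [map_prod, map_sum, map_mul, aeval_X, Sum.elim_inl, Sum.elim_inr]
    exact h2 i hi m hm
  · simp only [map_sub, map_mul, aeval_X, Sum.elim_inl, Sum.elim_inr, map_one]
    rw [mul_inv_cancel₀ (hc m hm), sub_self]

end Pool.Agent.Helper97.GH
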