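import Pool.Agent.Helper97.GH.Step
import Pool.Agent.Helper97.GH.Bad

/-!
# GH, blocks B5, B7: the chain of specializations and its bottom
-/

set_option autoImplicit false

namespace Pool.Agent.Helper97.GH

open Finset MvPolynomial

universe u v

variable {k : Type u} [Field k] {K : Type v} [Field K] {n q r : ℕ}

/-- Any `d + 1` sum-zero monomials in the nonzero `uu` have a relation modulo constants. -/
def Rk (f : k →+* K) (ℓ : Fin q → Fin (n + 1) → k) (x : Fin r → Fin (n + 1) → K) (d : ℕ) : Prop :=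
  ∀ m : Fin (d + 1) → Fin q → ℤ, (∀ b, ∑ i, m b i = 0) → (∀ b i, m b i ≠ 0 → uu f ℓ x i ≠ 0) →
    ∃ (s : Fin (d + 1) → ℤ) (c : k), s ≠ 0 ∧ ∏ i, uu f ℓ x i ^ (∑ b, s b * m b i) = f c

theorem pow_unit (O : ValuationSubring K) (t : K) (ht : t ≠ 0) (ht1 : O.valuation t < 1) (s : ℤ)
    (h : O.valuation (t ^ s) = 1) : s = 0 := by
  have h0 : 0 < O.valuation t := zero_lt_iff.2 ((Valuation.ne_zero_iff _).2 ht)
  rw [map_zpow₀] at h
  have h1 := (zpow_le_one_iff_right_of_lt_one₀ h0 ht1).1 h.le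
  have h2 := (one_le_zpow_iff_right_of_lt_one₀ h0 ht1).1 h.ge
  omega

theorem val_f (f : k →+* K) (O : ValuationSubring K) (hf : ∀ c, f c ∈ O) (c : k) (hc : c ≠ 0) :
    O.valuation (f c) = 1 := by
  have h1 : O.valuation (f c) ≤ 1 := (ValuationSubring.valuation_le_one_iff _ _).2 (hf c)
  have h2 : O.valuation (f c)⁻¹ ≤ 1 := by
    rw [← map_inv₀]
    exact (ValuationSubring.valuation_le_one_iff _ _).2 (hf _)
  refine le_antisymm h1 ?_
  rw [map_inv₀] at h2
  exact (inv_le_one₀ (zero_lt_iff.2 ((Valuation.ne_zero_iff _).2 ((map_ne_zero f).2 hc)))).1 h2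

theorem prod_single {ι : Type*} [Fintype ι] [DecidableEq ι] (u : ι → K) (i j : ι) (hij : i ≠ j) :
    ∏ l, u l ^ ((Pi.single i (1 : ℤ) : ι → ℤ) l - (Pi.single j (1 : ℤ) : ι → ℤ) l) = u i / u j := by
  have h : ∀ l, u l ^ ((Pi.single i (1 : ℤ) : ι → ℤ) l - (Pi.single j (1 : ℤ) : ι → ℤ) l) =
      (if l = i then u i else 1) * (if l = j then (u j)⁻¹ else 1) := by
    intro l
    by_cases h1 : l = i
    · subst h1
      rw [Pi.single_eq_same, Pi.single_eq_of_ne hij, if_pos rfl, if_neg hij]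
      simp
    · by_cases h2 : l = j
      · subst h2
        rw [Pi.single_eq_same, Pi.single_eq_of_ne h1, if_neg h1, if_pos rfl]
        simp
      · rw [Pi.single_eq_of_ne h1, Pi.single_eq_of_ne h2, if_neg h1, if_neg h2]
        simp
  rw [Finset.prod_congr rfl fun l _ => h l, Finset.prod_mul_distrib, Finset.prod_ite_eq', Finset.prod_ite_eq',
    if_pos (Finset.mem_univ _), if_pos (Finset.mem_univ _), div_eq_mul_inv]

theorem sum_single {ι : Type*} [Fintype ι] [DecidableEq ι] (i j : ι) :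
    ∑ l, ((Pi.single i (1 : ℤ) : ι → ℤ) l - (Pi.single j (1 : ℤ) : ι → ℤ) l) = 0 := by
  rw [Finset.sum_sub_distrib]
  simp

/-- The value of the quotient `u b / u g` is positive when `b` leaves the set and `g` stays. -/
theorem val_lt [Infinite k] (f : k →+* K) {ℓ : Fin q → Fin (n + 1) → k} (x : Fin r → Fin (n + 1) → K)
    (O : ValuationSubring K) (hf : ∀ c, f c ∈ O) (x' : Fin r → Fin (n + 1) → IsLocalRing.ResidueField O)
    (h : ∀ i, uu (red f O hf) ℓ x' i ≠ 0 ↔ uu f ℓ x i ≠ 0 ∧ ∀ j, uu f ℓ x j / uu f ℓ x i ∈ O)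
    (b g : Fin q) (hb : uu f ℓ x b ≠ 0) (hb' : uu (red f O hf) ℓ x' b = 0) (hg' : uu (red f O hf) ℓ x' g ≠ 0) :
    O.valuation (uu f ℓ x b / uu f ℓ x g) < 1 := by
  obtain ⟨hg, hg2⟩ := (h g).1 hg'
  refine lt_of_le_of_ne ((ValuationSubring.valuation_le_one_iff _ _).2 (hg2 b)) fun h1 => ?_
  apply (h b).2 ⟨hb, fun j => ?_⟩ hb'
  have h2 : uu f ℓ x j / uu f ℓ x b = (uu f ℓ x j / uu f ℓ x g) * (uu f ℓ x b / uu f ℓ x g)⁻¹ := by
    field_simp
  rw [← ValuationSubring.valuation_le_one_iff, h2, map_mul, map_inv₀, h1, inv_one, mul_one,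
    ValuationSubring.valuation_le_one_iff]
  exact hg2 j

theorem rk_step [Infinite k] (f : k →+* K) {ℓ : Fin q → Fin (n + 1) → k} (x : Fin r → Fin (n + 1) → K) (d : ℕ)
    (hrk : Rk f ℓ x (d + 1)) (O : ValuationSubring K) (hf : ∀ c, f c ∈ O)
    (x' : Fin r → Fin (n + 1) → IsLocalRing.ResidueField O)
    (h : ∀ i, uu (red f O hf) ℓ x' i ≠ 0 ↔ uu f ℓ x i ≠ 0 ∧ ∀ j, uu f ℓ x j / uu f ℓ x i ∈ O)
    (hm : ∀ m : Fin q → ℤ, ∑ i, m i = 0 → (∀ i, m i ≠ 0 → uu (red f O hf) ℓ x' i ≠ 0) →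
        ∃ h : ∏ i, uu f ℓ x i ^ m i ∈ O, IsLocalRing.residue O ⟨_, h⟩ = ∏ i, uu (red f O hf) ℓ x' i ^ m i)
    (b g : Fin q) (hb : uu f ℓ x b ≠ 0) (hb' : uu (red f O hf) ℓ x' b = 0) (hg' : uu (red f O hf) ℓ x' g ≠ 0) :
    Rk (red f O hf) ℓ x' d := by
  intro m hsum hsupp
  have hbg : b ≠ g := fun e => hg' (e ▸ hb')
  have hu : ∀ i, uu (red f O hf) ℓ x' i ≠ 0 → uu f ℓ x i ≠ 0 := fun i hi => ((h i).1 hi).1
  let m0 : Fin q → ℤ := fun l => (Pi.single b (1 : ℤ) : Fin q → ℤ) l - (Pi.single g (1 : ℤ) : Fin q → ℤ) l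
  obtain ⟨s, c, hs, hc⟩ := hrk (Fin.cons m0 m) (by
    intro e
    refine Fin.cases ?_ (fun e => ?_) e
    · exact sum_single b g
    · exact hsum e) (by
    intro e i
    refine Fin.cases ?_ (fun e => ?_) e
    · intro hi
      simp only [Fin.cons_zero, m0] at hi
      by_cases h1 : i = b
      · rw [h1]; exact hb
      · by_cases h2 : i = g
        · rw [h2]; exact hu g hg'
        · rw [Pi.single_eq_of_ne h1, Pi.single_eq_of_ne h2] at hi
          exact absurd rfl hi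
    · intro hi
      rw [Fin.cons_succ] at hi
      exact hu i (hsupp e i hi))
  -- the tail
  let m' : Fin q → ℤ := fun i => ∑ e : Fin (d + 1), s e.succ * m e i
  have hm'sum : ∑ i, m' i = 0 := by
    simp only [m']
    rw [Finset.sum_comm]
    refine Finset.sum_eq_zero fun e _ => ?_
    rw [← Finset.mul_sum, hsum, mul_zero]
  have hm'supp : ∀ i, m' i ≠ 0 → uu (red f O hf) ℓ x' i ≠ 0 := by
    intro i hi h0
    apply hi
    refine Finset.sum_eq_zero fun e _ => ?_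
    have : m e i = 0 := by
      by_contra h1
      exact hsupp e i h1 h0
    rw [this, mul_zero]
  obtain ⟨hmem, hres⟩ := hm m' hm'sum hm'supp
  have hsplit : ∏ i, uu f ℓ x i ^ (∑ e, s e * (Fin.cons m0 m : Fin (d + 1 + 1) → Fin q → ℤ) e i) =
      (uu f ℓ x b / uu f ℓ x g) ^ s 0 * ∏ i, uu f ℓ x i ^ m' i := by
    rw [← prod_single (uu f ℓ x) b g hbg, ← Finset.prod_zpow, ← Finset.prod_mul_distrib]
    refine Finset.prod_congr rfl fun i _ => ?_
    rw [Fin.sum_univ_succ]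
    simp only [Fin.cons_zero, Fin.cons_succ]
    show uu f ℓ x i ^ (s 0 * m0 i + m' i) = (uu f ℓ x i ^ m0 i) ^ s 0 * uu f ℓ x i ^ m' i
    rw [← zpow_mul, mul_comm (s 0)]
    by_cases hi : uu f ℓ x i = 0
    · have h1 : m0 i = 0 := by
        simp only [m0]
        have e1 : i ≠ b := by
          rintro rfl
          exact hb hi
        have e2 : i ≠ g := by
          rintro rfl
          exact hu _ hg' hi
        rw [Pi.single_eq_of_ne e1, Pi.single_eq_of_ne e2, sub_zero]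
      have h2 : m' i = 0 := by
        by_contra h3
        exact hu i (hm'supp i h3) hi
      rw [h1, h2]
      simp
    · rw [zpow_add₀ hi]
  have hunit : O.valuation (∏ i, uu f ℓ x i ^ m' i) = 1 := by
    have h1 : IsUnit (⟨_, hmem⟩ : O) := by
      rw [← IsLocalRing.residue_ne_zero_iff_isUnit, hres]
      refine Finset.prod_ne_zero_iff.2 fun i _ => ?_
      by_cases hi : m' i = 0
      · rw [hi, zpow_zero]
        exact one_ne_zero
      · exact zpow_ne_zero _ (hm'supp i hi)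
    exact (ValuationSubring.valuation_eq_one_iff O _).1 h1
  have hc0 : c ≠ 0 := by
    rintro rfl
    rw [hsplit, map_zero] at hc
    rcases mul_eq_zero.1 hc with h1 | h1
    · exact zpow_ne_zero _ (div_ne_zero hb (hu g hg')) h1
    · rw [h1, map_zero] at hunit
      exact zero_ne_one hunit
  rw [hsplit] at hc
  have hs0 : s 0 = 0 := by
    refine pow_unit O _ (div_ne_zero hb (hu g hg')) (val_lt f x O hf x' h b g hb hb' hg') _ ?_
    have h1 := val_f f O hf c hc0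
    rwa [← hc, map_mul, hunit, mul_one] at h1
  rw [hs0, zpow_zero, one_mul] at hc
  refine ⟨fun e => s e.succ, c, ?_, ?_⟩
  · intro h0
    apply hs
    funext e
    refine Fin.cases ?_ (fun e => ?_) e
    · exact hs0
    · exact congrFun h0 e
  · show ∏ i, uu (red f O hf) ℓ x' i ^ m' i = red f O hf c
    rw [← hres]
    show IsLocalRing.residue O _ = IsLocalRing.residue O (f.codRestrict O hf c)
    congr 1
    exact Subtype.ext hc

/-- A state of the chain. -/
def St (ℓ : Fin q → Fin (n + 1) → k) (r : ℕ) (A : Finset (Fin q)) (d : ℕ) : Prop :=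
  ∃ (K : Type v) (_ : Field K) (f : k →+* K) (x : Fin r → Fin (n + 1) → K) (σ₀ : Fin r),
    (∀ σ, x σ ≠ 0) ∧ Gen f ℓ A (x σ₀) ∧ (∀ a ∈ A, lf f (ℓ a) (x σ₀) = 0) ∧ Rk f ℓ x d

theorem exists_pt (ℓ : Fin q → Fin (n + 1) → k) (A : Finset (Fin q)) (hA : A.card ≤ n) :
    ∃ p ∈ Lin ℓ A, p ≠ 0 := by
  classical
  let F : (Fin (n + 1) → k) →ₗ[k] (A → k) :=
    { toFun := fun p a => ∑ j, ℓ a j * p j
      map_add' := by
        intro p p'
        funext a
        simp only [Pi.add_apply, mul_add, Finset.sum_add_distrib]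
      map_smul' := by
        intro c p
        funext a
        simp only [Pi.smul_apply, smul_eq_mul, RingHom.id_apply, Finset.mul_sum]
        exact Finset.sum_congr rfl fun j _ => by ring }
  have h : LinearMap.ker F ≠ ⊥ := by
    apply LinearMap.ker_ne_bot_of_finrank_lt
    rw [Module.finrank_fintype_fun_eq_card, Module.finrank_fintype_fun_eq_card, Fintype.card_coe,
      Fintype.card_fin]
    omega
  obtain ⟨p, hp, hp0⟩ := Submodule.exists_mem_ne_zero_of_ne_bot h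
  refine ⟨p, fun a ha => ?_, hp0⟩
  exact congrFun (LinearMap.mem_ker.1 hp) ⟨a, ha⟩

theorem uu_zero_of (f : k →+* K) (ℓ : Fin q → Fin (n + 1) → k) (x : Fin r → Fin (n + 1) → K) (σ : Fin r)
    (i : Fin q) (h : lf f (ℓ i) (x σ) = 0) : uu f ℓ x i = 0 := Finset.prod_eq_zero (Finset.mem_univ σ) h

theorem chain [Infinite k] {ℓ : Fin q → Fin (n + 1) → k} (hℓ : GP ℓ) (hq : r * n < q)
    (h : St.{u, v} ℓ r ∅ n) (a : ℕ) (ha : a < n) : ∃ A : Finset (Fin q), A.card = a ∧ St.{u, v} ℓ r A (n - a) := by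
  classical
  induction a with
  | zero => exact ⟨∅, rfl, h⟩
  | succ a ih =>
    obtain ⟨A, hA, K, _, f, x, σ₀, hx, hgen, hz, hrk⟩ := ih (by omega)
    obtain ⟨b, hb⟩ := exists_ne f hℓ hq x hx
    have hbA : b ∉ A := fun h1 => hb (uu_zero_of f ℓ x σ₀ b (hz b h1))
    have hcard : (insert b A).card = a + 1 := by
      rw [Finset.card_insert_of_notMem hbA, hA]
    obtain ⟨O, hf, x', hx', hgen', hz', hF, hm⟩ := step f hℓ hq A x σ₀ hx hgen b
      (exists_pt ℓ (insert b A) (by omega))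
    obtain ⟨g, hg⟩ := exists_ne (red f O hf) hℓ hq x' hx'
    refine ⟨insert b A, hcard, IsLocalRing.ResidueField O, inferInstance, red f O hf, x', σ₀, hx', hgen', hz', ?_⟩
    refine rk_step f x (n - (a + 1)) ?_ O hf x' hF hm b g hb
      (uu_zero_of _ ℓ x' σ₀ b (hz' b (Finset.mem_insert_self _ _))) hg
    have : n - (a + 1) + 1 = n - a := by omega
    rw [this]
    exact hrk

/-- Comparison of values. -/
theorem cmp (f : k →+* K) (O : ValuationSubring K) (hf : ∀ c, f c ∈ O) (y t : K) (ht : t ≠ 0) (N M : ℤ)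
    (hN : 0 < N) (c : k) (hc : c ≠ 0) (h : y ^ N = f c * t ^ M) :
    (O.valuation t < 1 → (y ∈ O ↔ 0 ≤ M)) ∧ (1 < O.valuation t → (y ∈ O ↔ M ≤ 0)) ∧
      (O.valuation t = 1 → y ∈ O) := by
  have h1 : O.valuation y ^ N = O.valuation t ^ M := by
    rw [← map_zpow₀, h, map_mul, val_f f O hf c hc, one_mul, map_zpow₀]
  have h2 : y ∈ O ↔ O.valuation t ^ M ≤ 1 := by
    rw [← ValuationSubring.valuation_le_one_iff, ← h1, ← one_zpow N,
      zpow_le_zpow_iff_left₀ zero_le zero_le hN, one_zpow]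
  have h0 : 0 < O.valuation t := zero_lt_iff.2 ((Valuation.ne_zero_iff _).2 ht)
  refine ⟨fun h3 => ?_, fun h3 => ?_, fun h3 => ?_⟩
  · rw [h2, zpow_le_one_iff_right_of_lt_one₀ h0 h3]
  · rw [h2, zpow_le_one_iff_right₀ h3]
  · rw [h2, h3, one_zpow]

/-- An element of `K` with a power in an algebraically closed field is in the field. -/
theorem root_mem [IsAlgClosed k] (f : k →+* K) (y : K) (N : ℕ) (hN : 0 < N) (c : k) (h : y ^ N = f c) :
    ∃ c', y = f c' := by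
  let P : Polynomial k := Polynomial.X ^ N - Polynomial.C c
  have hP : P.Monic := Polynomial.monic_X_pow_sub_C c hN.ne'
  have hs : P.Splits := IsAlgClosed.splits P
  have h1 : P.eval₂ f y = 0 := by
    simp [P, h]
  rw [Polynomial.Splits.eq_prod_roots_of_monic hs hP, Polynomial.eval₂_multiset_prod] at h1
  rw [Multiset.prod_eq_zero_iff] at h1
  simp only [Multiset.map_map, Multiset.mem_map] at h1
  obtain ⟨c', -, hc'⟩ := h1
  refine ⟨c', ?_⟩
  simp only [Function.comp_apply, Polynomial.eval₂_sub, Polynomial.eval₂_X, Polynomial.eval₂_C] at hc'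
  exact sub_eq_zero.1 hc'

/-- Nullstellensatz. -/
theorem null [IsAlgClosed k] {ι : Type*} [Finite ι] (f : k →+* K) (z : ι → K) :
    ∃ z₀ : ι → k, ∀ P : MvPolynomial ι k, eval₂ f z P = 0 → eval z₀ P = 0 := by
  have hne : RingHom.ker (eval₂Hom f z) ≠ ⊤ := RingHom.ker_ne_top _
  obtain ⟨M, hM, hle⟩ := Ideal.exists_le_maximal _ hne
  obtain ⟨z₀, hz₀⟩ := (MvPolynomial.isMaximal_iff_eq_vanishingIdeal_singleton (K := k)).1 hM
  refine ⟨z₀, fun P hP => ?_⟩
  have h1 : P ∈ M := hle hP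
  rw [hz₀] at h1
  have := h1 z₀ rfl
  rwa [← MvPolynomial.coe_aeval_eq_eval]

/-- From the residue fields to a bad arrangement. -/
theorem to_bad [IsAlgClosed k] (f : k →+* K) {ℓ : Fin q → Fin (n + 1) → k} (A : Finset (Fin q))
    (hA : A.card + 1 = n) (x : Fin r → Fin (n + 1) → K) (σ₀ : Fin r) (hzA : ∀ a ∈ A, lf f (ℓ a) (x σ₀) = 0)
    (O : Fin q → ValuationSubring K) (hf : ∀ b c, f c ∈ O b)
    (x' : ∀ b, Fin r → Fin (n + 1) → IsLocalRing.ResidueField (O b))
    (hz' : ∀ b, ∀ a ∈ insert b A, lf (red f (O b) (hf b)) (ℓ a) (x' b σ₀) = 0)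
    (hm : ∀ b, ∀ m : Fin q → ℤ, ∑ i, m i = 0 → (∀ i, m i ≠ 0 → uu (red f (O b) (hf b)) ℓ (x' b) i ≠ 0) →
        ∃ h : ∏ i, uu f ℓ x i ^ m i ∈ O b,
          IsLocalRing.residue (O b) ⟨_, h⟩ = ∏ i, uu (red f (O b) (hf b)) ℓ (x' b) i ^ m i)
    (V₁ V₂ : Finset (Fin q)) (hV₁ : ∀ i ∈ V₁, uu f ℓ x i ≠ 0) (hV₂ : ∀ i ∈ V₂, uu f ℓ x i ≠ 0)
    (hdis : ∀ i ∈ V₁, i ∉ V₂) (hne : V₂.Nonempty) (hle : V₂.card ≤ V₁.card)
    (hF : ∀ b ∈ V₁, ∀ i, uu (red f (O b) (hf b)) ℓ (x' b) i ≠ 0 ↔ i ∈ V₂)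
    (hc : ∀ i ∈ V₂, ∀ j ∈ V₂, ∃ c, uu f ℓ x i / uu f ℓ x j = f c) :
    ∃ (V : Finset (Fin q)) (ι : Fin q → Fin q), Comb n A V ι ∧ Bad r A V ι ℓ := by
  classical
  obtain ⟨V, hV, hVc⟩ := Finset.exists_subset_card_eq hle
  let e : V ≃ V₂ := Finset.equivOfCardEq hVc
  let ι : Fin q → Fin q := fun g => if h : g ∈ V then e ⟨g, h⟩ else g
  have hι : ∀ (g : Fin q) (h : g ∈ V), ι g = e ⟨g, h⟩ := fun g h => by
    simp only [ι]
    rw [dif_pos h]
  have hι2 : ∀ g ∈ V, ι g ∈ V₂ := fun g h => by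
    rw [hι g h]
    exact (e ⟨g, h⟩).2
  have hsurj : ∀ j ∈ V₂, ∃ g ∈ V, ι g = j := by
    intro j hj
    refine ⟨(e.symm ⟨j, hj⟩ : Fin q), (e.symm ⟨j, hj⟩).2, ?_⟩
    rw [hι _ (e.symm ⟨j, hj⟩).2]
    simp
  have hAu : ∀ a ∈ A, uu f ℓ x a = 0 := fun a ha => uu_zero_of f ℓ x σ₀ a (hzA a ha)
  have hVne : V.Nonempty := by
    rw [← Finset.card_pos, hVc]
    exact Finset.card_pos.2 hne
  obtain ⟨j₀, hj₀⟩ := hne
  choose! c hc using fun j (hj : j ∈ V₂) => hc j hj j₀ hj₀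
  have hc0 : ∀ j ∈ V₂, c j ≠ 0 := by
    intro j hj h0
    have h1 := hc j hj
    rw [h0, map_zero, div_eq_zero_iff] at h1
    exact h1.elim (hV₂ j hj) (hV₂ j₀ hj₀)
  refine ⟨V, ι, ⟨hA, hVne, ?_, ?_, ?_, ?_⟩, σ₀, ?_⟩
  · intro i hi hiA
    exact hV₁ i (hV hi) (hAu i hiA)
  · intro i hi hiA
    exact hV₂ _ (hι2 i hi) (hAu _ hiA)
  · intro i hi j hj hij
    exact hdis i (hV hi) (hij ▸ hι2 j hj)
  · intro i hi j hj hij
    rw [hι i hi, hι j hj] at hij
    have := e.injective (Subtype.ext hij)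
    exact congrArg Subtype.val this
  · -- the points over `k`
    have key : ∀ b ∈ V, ∃ y : Fin r → Fin (n + 1) → k,
        (∀ h ∈ insert b A, ∑ j, ℓ h j * y σ₀ j = 0) ∧ (∀ g, g ∉ V₂ → ∏ σ, ∑ j, ℓ g j * y σ j = 0) ∧
        ∀ j ∈ V₂, ∏ σ, ∑ l, ℓ j l * y σ l = c j := by
      intro b hb
      have hFb := hF b (hV hb)
      set f' := red f (O b) (hf b) with hf'
      set w := uu f' ℓ (x' b) j₀ with hw
      have hw0 : w ≠ 0 := (hFb j₀).2 hj₀
      let z : Fin r × Fin (n + 1) → IsLocalRing.ResidueField (O b) :=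
        fun p => (if p.1 = σ₀ then w⁻¹ else 1) * x' b p.1 p.2
      obtain ⟨z₀, hz₀⟩ := null f' z
      have hsum : ∀ (g : Fin q) (σ : Fin r), eval₂ f' z (∑ j, C (ℓ g j) * X (σ, j)) =
          (if σ = σ₀ then w⁻¹ else 1) * lf f' (ℓ g) (x' b σ) := by
        intro g σ
        rw [← coe_eval₂Hom, map_sum, lf, Finset.mul_sum]
        refine Finset.sum_congr rfl fun j _ => ?_
        rw [map_mul, eval₂Hom_C, eval₂Hom_X']
        simp only [z]
        ring
      have hprod : ∀ g : Fin q, eval₂ f' z (∏ σ, ∑ j, C (ℓ g j) * X (σ, j)) = w⁻¹ * uu f' ℓ (x' b) g := by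
        intro g
        rw [← coe_eval₂Hom, map_prod]
        have h1 : ∀ σ, eval₂Hom f' z (∑ j, C (ℓ g j) * X (σ, j)) =
            (if σ = σ₀ then w⁻¹ else 1) * lf f' (ℓ g) (x' b σ) := fun σ => hsum g σ
        rw [Finset.prod_congr rfl fun σ _ => h1 σ, Finset.prod_mul_distrib, Finset.prod_ite_eq',
          if_pos (Finset.mem_univ _)]
        rfl
      refine ⟨fun σ j => z₀ (σ, j), ?_, ?_, ?_⟩
      · intro h hh
        have h1 := hz₀ (∑ j, C (ℓ h j) * X (σ₀, j)) (by rw [hsum, hz' b h hh, mul_zero])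
        simpa only [map_sum, map_mul, eval_C, eval_X] using h1
      · intro g hg
        have h2 : uu f' ℓ (x' b) g = 0 := by
          by_contra h3
          exact hg ((hFb g).1 h3)
        have h1 := hz₀ (∏ σ, ∑ j, C (ℓ g j) * X (σ, j)) (by rw [hprod, h2, mul_zero])
        simpa only [map_prod, map_sum, map_mul, eval_C, eval_X] using h1
      · intro j hj
        have h2 : w⁻¹ * uu f' ℓ (x' b) j = f' (c j) := by
          by_cases hjj : j = j₀
          · subst hjj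
            have h3 := hc j hj
            rw [div_self (hV₂ j hj)] at h3
            have h4 : c j = 1 := f.injective (by rw [← h3, map_one])
            rw [h4, map_one]
            exact inv_mul_cancel₀ hw0
          · obtain ⟨h3, h4⟩ := hm b (fun l => (Pi.single j (1 : ℤ) : Fin q → ℤ) l -
                (Pi.single j₀ (1 : ℤ) : Fin q → ℤ) l) (sum_single j j₀) (by
              intro i hi
              rw [hFb]
              by_cases h5 : i = j
              · rw [h5]; exact hj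
              · by_cases h6 : i = j₀
                · rw [h6]; exact hj₀
                · rw [Pi.single_eq_of_ne h5, Pi.single_eq_of_ne h6] at hi
                  exact absurd rfl hi)
            have h5 : (⟨_, h3⟩ : O b) = f.codRestrict (O b) (hf b) (c j) := by
              apply Subtype.ext
              exact (prod_single (uu f ℓ x) j j₀ hjj).trans (hc j hj)
            rw [h5, prod_single _ j j₀ hjj] at h4
            have h6 : f' (c j) = uu f' ℓ (x' b) j / uu f' ℓ (x' b) j₀ := h4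
            rw [h6, div_eq_mul_inv, mul_comm]
        have h1 := hz₀ (∏ σ, ∑ l, C (ℓ j l) * X (σ, l) - C (c j)) (by
          rw [eval₂_sub, hprod, eval₂_C, h2, sub_self])
        rw [map_sub, sub_eq_zero] at h1
        simpa only [map_prod, map_sum, map_mul, eval_C, eval_X] using h1
    choose! y hy1 hy2 hy3 using key
    refine ⟨y, c, fun i hi h hh => hy1 i hi h hh, ?_, ?_, ?_⟩
    · intro i hi g hg
      refine hy2 i hi g fun hgV => ?_
      obtain ⟨j, hj, hjg⟩ := hsurj g hgV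
      exact hg j hj hjg.symm
    · intro i hi m hm'
      exact hy3 i hi (ι m) (hι2 m hm')
    · intro m hm'
      exact hc0 _ (hι2 m hm')

theorem bottom [IsAlgClosed k] {ℓ : Fin q → Fin (n + 1) → k} (hℓ : GP ℓ) (hq : r * n < q) (A : Finset (Fin q))
    (hA : A.card + 1 = n) (h : St.{u, v} ℓ r A 1) :
    ∃ (V : Finset (Fin q)) (ι : Fin q → Fin q), Comb n A V ι ∧ Bad r A V ι ℓ := by
  classical
  obtain ⟨K, _, f, x, σ₀, hx, hgen, hzA, hrk⟩ := h
  have hst := fun b => step f hℓ hq A x σ₀ hx hgen b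
    (exists_pt ℓ (insert b A) ((Finset.card_insert_le b A).trans (by omega)))
  choose O hf x' hx' hgen' hz' hF hm using hst
  have hbF : ∀ b, uu (red f (O b) (hf b)) ℓ (x' b) b = 0 := fun b =>
    uu_zero_of _ ℓ (x' b) σ₀ b (hz' b b (Finset.mem_insert_self _ _))
  have hne := fun b => exists_ne (red f (O b) (hf b)) hℓ hq (x' b) (hx' b)
  obtain ⟨b₁, hb₁⟩ := exists_ne f hℓ hq x hx
  obtain ⟨b₂, hb₂⟩ := hne b₁
  have hb₂' : uu f ℓ x b₂ ≠ 0 := ((hF b₁ b₂).1 hb₂).1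
  have hb12 : b₁ ≠ b₂ := fun e => hb₂ (e ▸ hbF b₁)
  set t := uu f ℓ x b₁ / uu f ℓ x b₂ with ht
  have ht0 : t ≠ 0 := div_ne_zero hb₁ hb₂'
  have hvt : (O b₁).valuation t < 1 := val_lt f x (O b₁) (hf b₁) (x' b₁) (hF b₁) b₁ b₂ hb₁ (hbF b₁) hb₂
  -- exponents
  have hexp : ∀ i, ∃ (N M : ℤ) (c : k), 0 < N ∧ c ≠ 0 ∧
      (uu f ℓ x i ≠ 0 → (uu f ℓ x i / uu f ℓ x b₂) ^ N = f c * t ^ M) := by
    intro i
    by_cases hi : uu f ℓ x i = 0
    · exact ⟨1, 0, 1, one_pos, one_ne_zero, fun h => absurd hi h⟩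
    by_cases hib : i = b₂
    · refine ⟨1, 0, 1, one_pos, one_ne_zero, fun _ => ?_⟩
      rw [hib, div_self hb₂']
      simp
    obtain ⟨s, c, hs, hc⟩ := hrk ![fun l => (Pi.single i (1 : ℤ) : Fin q → ℤ) l -
          (Pi.single b₂ (1 : ℤ) : Fin q → ℤ) l, fun l => (Pi.single b₁ (1 : ℤ) : Fin q → ℤ) l -
          (Pi.single b₂ (1 : ℤ) : Fin q → ℤ) l] (by
      intro b
      fin_cases b
      · exact sum_single i b₂
      · exact sum_single b₁ b₂) (by
      intro b l hl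
      by_cases h2 : l = b₂
      · rw [h2]; exact hb₂'
      fin_cases b
      · by_cases h1 : l = i
        · rw [h1]; exact hi
        · simp only [Fin.zero_eta, Matrix.cons_val_zero] at hl
          rw [Pi.single_eq_of_ne h1, Pi.single_eq_of_ne h2] at hl
          exact absurd rfl hl
      · by_cases h1 : l = b₁
        · rw [h1]; exact hb₁
        · simp only [Fin.mk_one, Matrix.cons_val_one, Matrix.cons_val_fin_one] at hl
          rw [Pi.single_eq_of_ne h1, Pi.single_eq_of_ne h2] at hl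
          exact absurd rfl hl)
    have hc' : (uu f ℓ x i / uu f ℓ x b₂) ^ s 0 * t ^ s 1 = f c := by
      rw [← hc, ← prod_single (uu f ℓ x) i b₂ hib, ht, ← prod_single (uu f ℓ x) b₁ b₂ hb12,
        ← Finset.prod_zpow, ← Finset.prod_zpow, ← Finset.prod_mul_distrib]
      refine Finset.prod_congr rfl fun l _ => ?_
      rw [Fin.sum_univ_two, ← zpow_mul, ← zpow_mul]
      simp only [Matrix.cons_val_zero, Matrix.cons_val_one, Matrix.cons_val_fin_one]
      by_cases hl : uu f ℓ x l = 0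
      · have e1 : l ≠ i := fun e => hi (e ▸ hl)
        have e2 : l ≠ b₁ := fun e => hb₁ (e ▸ hl)
        have e3 : l ≠ b₂ := fun e => hb₂' (e ▸ hl)
        rw [Pi.single_eq_of_ne e1, Pi.single_eq_of_ne e2, Pi.single_eq_of_ne e3]
        simp
      · rw [← zpow_add₀ hl]
        congr 1
        ring
    have hc0 : c ≠ 0 := by
      rintro rfl
      rw [map_zero] at hc'
      rcases mul_eq_zero.1 hc' with h1 | h1
      · exact zpow_ne_zero _ (div_ne_zero hi hb₂') h1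
      · exact zpow_ne_zero _ ht0 h1
    have hs0 : s 0 ≠ 0 := by
      intro h0
      rw [h0, zpow_zero, one_mul] at hc'
      have h1 : s 1 = 0 := pow_unit (O b₁) t ht0 hvt _ (by rw [hc']; exact val_f f (O b₁) (hf b₁) c hc0)
      apply hs
      funext e
      fin_cases e
      · exact h0
      · exact h1
    rcases lt_or_gt_of_ne hs0 with h1 | h1
    · refine ⟨-s 0, s 1, c⁻¹, by omega, inv_ne_zero hc0, fun _ => ?_⟩
      rw [map_inv₀, ← hc', zpow_neg]
      have h2 : (uu f ℓ x i / uu f ℓ x b₂) ^ s 0 ≠ 0 := zpow_ne_zero _ (div_ne_zero hi hb₂')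
      have h3 : t ^ s 1 ≠ 0 := zpow_ne_zero _ ht0
      field_simp
    · refine ⟨s 0, -s 1, c, h1, hc0, fun _ => ?_⟩
      rw [← hc', zpow_neg]
      have h3 : t ^ s 1 ≠ 0 := zpow_ne_zero _ ht0
      field_simp
  choose N M c hN hc0 hNM using hexp
  -- comparison
  let D : Fin q → Fin q → ℤ := fun i j => M i * N j - M j * N i
  have hrel : ∀ i j, uu f ℓ x i ≠ 0 → uu f ℓ x j ≠ 0 →
      ∃ c' : k, c' ≠ 0 ∧ (uu f ℓ x i / uu f ℓ x j) ^ (N i * N j) = f c' * t ^ D i j := by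
    intro i j hi hj
    refine ⟨c i ^ N j * (c j ^ N i)⁻¹, mul_ne_zero (zpow_ne_zero _ (hc0 i))
      (inv_ne_zero (zpow_ne_zero _ (hc0 j))), ?_⟩
    have h1 : (uu f ℓ x i / uu f ℓ x j) ^ (N i * N j) =
        ((uu f ℓ x i / uu f ℓ x b₂) ^ N i) ^ N j * (((uu f ℓ x j / uu f ℓ x b₂) ^ N j) ^ N i)⁻¹ := by
      rw [← zpow_mul, ← zpow_mul, mul_comm (N j) (N i), ← inv_zpow, ← mul_zpow]
      congr 1
      field_simp
    rw [h1, hNM i hi, hNM j hj, mul_zpow, mul_zpow, mul_inv, map_mul, map_inv₀, map_zpow₀, map_zpow₀,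
      ← zpow_mul, ← zpow_mul]
    simp only [D]
    rw [zpow_sub₀ ht0]
    ring
  have hcmp : ∀ b i j, uu f ℓ x i ≠ 0 → uu f ℓ x j ≠ 0 →
      ((O b).valuation t < 1 → (uu f ℓ x i / uu f ℓ x j ∈ O b ↔ 0 ≤ D i j)) ∧
      (1 < (O b).valuation t → (uu f ℓ x i / uu f ℓ x j ∈ O b ↔ D i j ≤ 0)) ∧
      ((O b).valuation t = 1 → uu f ℓ x i / uu f ℓ x j ∈ O b) := by
    intro b i j hi hj
    obtain ⟨c', hc', h1⟩ := hrel i j hi hj
    exact cmp f (O b) (hf b) _ t ht0 (N i * N j) (D i j) (mul_pos (hN i) (hN j)) c' hc' h1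
  let Vmin : Finset (Fin q) := univ.filter fun i => uu f ℓ x i ≠ 0 ∧ ∀ j, uu f ℓ x j ≠ 0 → 0 ≤ D j i
  let Vmax : Finset (Fin q) := univ.filter fun i => uu f ℓ x i ≠ 0 ∧ ∀ j, uu f ℓ x j ≠ 0 → D j i ≤ 0
  have hmin : ∀ b, (O b).valuation t < 1 → ∀ i, uu (red f (O b) (hf b)) ℓ (x' b) i ≠ 0 ↔ i ∈ Vmin := by
    intro b hb i
    rw [hF b i, Finset.mem_filter]
    refine ⟨fun h => ⟨Finset.mem_univ _, h.1, fun j hj => ((hcmp b j i hj h.1).1 hb).1 (h.2 j)⟩,
      fun h => ⟨h.2.1, fun j => ?_⟩⟩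
    by_cases hj : uu f ℓ x j = 0
    · rw [hj, zero_div]
      exact (O b).zero_mem
    · exact ((hcmp b j i hj h.2.1).1 hb).2 (h.2.2 j hj)
  have hmax : ∀ b, 1 < (O b).valuation t → ∀ i, uu (red f (O b) (hf b)) ℓ (x' b) i ≠ 0 ↔ i ∈ Vmax := by
    intro b hb i
    rw [hF b i, Finset.mem_filter]
    refine ⟨fun h => ⟨Finset.mem_univ _, h.1, fun j hj => ((hcmp b j i hj h.1).2.1 hb).1 (h.2 j)⟩,
      fun h => ⟨h.2.1, fun j => ?_⟩⟩
    by_cases hj : uu f ℓ x j = 0
    · rw [hj, zero_div]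
      exact (O b).zero_mem
    · exact ((hcmp b j i hj h.2.1).2.1 hb).2 (h.2.2 j hj)
  have hcase : ∀ b, uu f ℓ x b ≠ 0 → (O b).valuation t < 1 ∨ 1 < (O b).valuation t := by
    intro b hb
    rcases lt_trichotomy ((O b).valuation t) 1 with h | h | h
    · exact Or.inl h
    · exfalso
      refine ((hF b b).2 ⟨hb, fun j => ?_⟩) (hbF b)
      by_cases hj : uu f ℓ x j = 0
      · rw [hj, zero_div]
        exact (O b).zero_mem
      · exact (hcmp b j b hj hb).2.2 h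
    · exact Or.inr h
  have huse : ∀ i ∈ Vmin, ∀ b, uu f ℓ x b ≠ 0 → b = i → 1 < (O b).valuation t := by
    intro i hi b hb hbi
    rcases hcase b hb with h | h
    · exact absurd (hbF b) ((hmin b h b).2 (hbi ▸ hi))
    · exact h
  have huse' : ∀ i ∈ Vmax, ∀ b, uu f ℓ x b ≠ 0 → b = i → (O b).valuation t < 1 := by
    intro i hi b hb hbi
    rcases hcase b hb with h | h
    · exact h
    · exact absurd (hbF b) ((hmax b h b).2 (hbi ▸ hi))
  have hdis : ∀ i ∈ Vmin, i ∉ Vmax := by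
    intro i hi hi'
    have h1 := (Finset.mem_filter.1 hi).2.1
    exact absurd (huse i hi i h1 rfl) (not_lt.2 (huse' i hi' i h1 rfl).le)
  have hminne : Vmin.Nonempty := ⟨b₂, (hmin b₁ hvt b₂).1 hb₂⟩
  have hmaxne : Vmax.Nonempty := by
    obtain ⟨b, hb⟩ := hminne
    have hb0 := (Finset.mem_filter.1 hb).2.1
    obtain ⟨j, hj⟩ := hne b
    exact ⟨j, (hmax b (huse b hb b hb0 rfl) j).1 hj⟩
  have hconst : ∀ i j, uu f ℓ x i ≠ 0 → uu f ℓ x j ≠ 0 → D i j = 0 →
      ∃ c, uu f ℓ x i / uu f ℓ x j = f c := by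
    intro i j hi hj hD
    obtain ⟨c', -, h1⟩ := hrel i j hi hj
    rw [hD, zpow_zero, mul_one] at h1
    have h2 : 0 < N i * N j := mul_pos (hN i) (hN j)
    refine root_mem f _ (N i * N j).toNat (by omega) c' ?_
    rw [← h1, ← zpow_natCast, Int.toNat_of_nonneg h2.le]
  have hantisymm : ∀ i j, D i j = - D j i := by
    intro i j
    simp only [D]
    ring
  rcases le_total Vmin.card Vmax.card with hle | hle
  · refine to_bad f A hA x σ₀ hzA O hf x' hz' hm Vmax Vmin (fun i hi => (Finset.mem_filter.1 hi).2.1)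
      (fun i hi => (Finset.mem_filter.1 hi).2.1) (fun i hi hi' => hdis i hi' hi) hminne hle
      (fun b hb => hmin b (huse' b hb b (Finset.mem_filter.1 hb).2.1 rfl)) ?_
    intro i hi j hj
    refine hconst i j (Finset.mem_filter.1 hi).2.1 (Finset.mem_filter.1 hj).2.1 ?_
    have h1 := (Finset.mem_filter.1 hi).2.2 j (Finset.mem_filter.1 hj).2.1
    have h2 := (Finset.mem_filter.1 hj).2.2 i (Finset.mem_filter.1 hi).2.1
    have h3 := hantisymm i j
    omega
  · refine to_bad f A hA x σ₀ hzA O hf x' hz' hm Vmin Vmax (fun i hi => (Finset.mem_filter.1 hi).2.1)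
      (fun i hi => (Finset.mem_filter.1 hi).2.1) hdis hmaxne hle
      (fun b hb => hmax b (huse b hb b (Finset.mem_filter.1 hb).2.1 rfl)) ?_
    intro i hi j hj
    refine hconst i j (Finset.mem_filter.1 hi).2.1 (Finset.mem_filter.1 hj).2.1 ?_
    have h1 := (Finset.mem_filter.1 hi).2.2 j (Finset.mem_filter.1 hj).2.1
    have h2 := (Finset.mem_filter.1 hj).2.2 i (Finset.mem_filter.1 hi).2.1
    have h3 := hantisymm i j
    omega

/-- The algebraic core. -/
theorem core [IsAlgClosed k] {ℓ : Fin q → Fin (n + 1) → k} (hℓ : GP ℓ) (hn : 2 ≤ n) (hq : r * n < q)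
    (h : St.{u, v} ℓ r ∅ n) :
    ∃ (A V : Finset (Fin q)) (ι : Fin q → Fin q), Comb n A V ι ∧ Bad r A V ι ℓ := by
  obtain ⟨A, hA, hst⟩ := chain hℓ hq h (n - 1) (by omega)
  have : n - (n - 1) = 1 := by omega
  rw [this] at hst
  obtain ⟨V, ι, h1, h2⟩ := bottom hℓ hq A (by omega) hst
  exact ⟨A, V, ι, h1, h2⟩

end Pool.Agent.Helper97.GH
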