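import Pool.Agent.Helper97.GH.Val
import Pool.Agent.Helper97.GH.Contra

/-!
# GH, block B6: specialization of a generic point of `L_A` to a generic point of `L_(A + b)`
-/

set_option autoImplicit false

namespace Pool.Agent.Helper97.GH

open Finset MvPolynomial

variable {k : Type*} [Field k] {K : Type*} [Field K] {n q r : ℕ}

/-- The value of the linear form `a` at `x`. -/
def lf (f : k →+* K) (a : Fin (n + 1) → k) (x : Fin (n + 1) → K) : K := ∑ j, f (a j) * x j

/-- The product of the values of `ℓ i` at the points `x σ`. -/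
def uu (f : k →+* K) (ℓ : Fin q → Fin (n + 1) → k) (x : Fin r → Fin (n + 1) → K) (i : Fin q) : K :=
  ∏ σ, lf f (ℓ i) (x σ)

/-- Any `n + 1` of the hyperplanes are independent. -/
def GP (ℓ : Fin q → Fin (n + 1) → k) : Prop :=
  ∀ B : Fin (n + 1) → Fin q, Function.Injective B → (Matrix.of fun a j => ℓ (B a) j).det ≠ 0

/-- The points over `k` on the hyperplanes of `A`. -/
def Lin (ℓ : Fin q → Fin (n + 1) → k) (A : Finset (Fin q)) : Submodule k (Fin (n + 1) → k) where
  carrier := {p | ∀ a ∈ A, ∑ j, ℓ a j * p j = 0}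
  zero_mem' := by
    intro a _
    simp
  add_mem' := by
    intro p p' hp hp' a ha
    simp only [Pi.add_apply, mul_add, Finset.sum_add_distrib]
    rw [hp a ha, hp' a ha, add_zero]
  smul_mem' := by
    intro c p hp a ha
    have := hp a ha
    simp only [Pi.smul_apply, smul_eq_mul]
    calc ∑ j, ℓ a j * (c * p j) = c * ∑ j, ℓ a j * p j := by
          rw [Finset.mul_sum]
          exact Finset.sum_congr rfl fun j _ => by ring
      _ = 0 := by rw [this, mul_zero]

theorem mem_Lin {ℓ : Fin q → Fin (n + 1) → k} {A : Finset (Fin q)} {p : Fin (n + 1) → k} :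
    p ∈ Lin ℓ A ↔ ∀ a ∈ A, ∑ j, ℓ a j * p j = 0 := Iff.rfl

/-- The vanishing ideal. -/
def van (L : Submodule k (Fin (n + 1) → k)) : Ideal (MvPolynomial (Fin (n + 1)) k) where
  carrier := {P | ∀ p ∈ L, eval p P = 0}
  zero_mem' := by
    intro p _
    simp
  add_mem' := by
    intro P Q hP hQ p hp
    rw [map_add, hP p hp, hQ p hp, add_zero]
  smul_mem' := by
    intro Q P hP p hp
    rw [smul_eq_mul, map_mul, hP p hp, mul_zero]

theorem mem_van {L : Submodule k (Fin (n + 1) → k)} {P : MvPolynomial (Fin (n + 1)) k} :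
    P ∈ van L ↔ ∀ p ∈ L, eval p P = 0 := Iff.rfl

theorem van_prime [Infinite k] (L : Submodule k (Fin (n + 1) → k)) : (van L).IsPrime := by
  rw [Ideal.isPrime_iff]
  constructor
  · intro h
    have h1 : (1 : MvPolynomial (Fin (n + 1)) k) ∈ van L := by
      rw [h]
      trivial
    have := h1 0 L.zero_mem
    rw [map_one] at this
    exact one_ne_zero this
  · intro P Q hPQ
    by_contra hcon
    push Not at hcon
    obtain ⟨h1, h2⟩ := hcon
    rw [mem_van] at h1 h2
    push Not at h1 h2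
    obtain ⟨p, hp, hPp⟩ := h1
    obtain ⟨p', hp', hQp⟩ := h2
    let F : MvPolynomial (Fin (n + 1)) k →ₐ[k] Polynomial k :=
      aeval fun i => Polynomial.C (p i) + Polynomial.X * Polynomial.C (p' i - p i)
    have hF : ∀ (s : k) (R : MvPolynomial (Fin (n + 1)) k),
        (F R).eval s = eval (fun i => p i + s * (p' i - p i)) R := by
      intro s R
      have : ((Polynomial.evalRingHom s).comp F.toRingHom) =
          (eval fun i => p i + s * (p' i - p i)) := by
        apply MvPolynomial.ringHom_ext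
        · intro c
          simp [F]
        · intro i
          simp [F]
      exact congrArg (fun g : MvPolynomial (Fin (n + 1)) k →+* k => g R) this
    have hz : F P * F Q = 0 := by
      apply Polynomial.funext
      intro s
      rw [← map_mul, hF, Polynomial.eval_zero]
      apply hPQ
      have h3 : (fun i => p i + s * (p' i - p i)) = p + s • (p' - p) := rfl
      rw [h3]
      exact L.add_mem hp (L.smul_mem s (L.sub_mem hp' hp))
    rcases mul_eq_zero.1 hz with h | h
    · apply hPp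
      have h3 := hF 0 P
      rw [h, Polynomial.eval_zero] at h3
      have h4 : (fun i => p i + 0 * (p' i - p i)) = p := by
        funext i
        ring
      rw [h4] at h3
      exact h3.symm
    · apply hQp
      have h3 := hF 1 Q
      rw [h, Polynomial.eval_zero] at h3
      have h4 : (fun i => p i + 1 * (p' i - p i)) = p' := by
        funext i
        ring
      rw [h4] at h3
      exact h3.symm

/-- `x` is a generic point of `L_A` (cone). -/
def Gen (f : k →+* K) (ℓ : Fin q → Fin (n + 1) → k) (A : Finset (Fin q)) (x : Fin (n + 1) → K) : Prop :=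
  ∀ P : MvPolynomial (Fin (n + 1)) k, eval₂ f x P = 0 → P ∈ van (Lin ℓ A)

open Classical in
theorem few (f : k →+* K) {ℓ : Fin q → Fin (n + 1) → k} (hℓ : GP ℓ) (z : Fin (n + 1) → K) (hz : z ≠ 0) :
    (univ.filter fun i => lf f (ℓ i) z = 0).card ≤ n := by
  by_contra hcon
  push Not at hcon
  obtain ⟨B, hB, hBc⟩ := Finset.exists_subset_card_eq (show n + 1 ≤ _ from hcon)
  let e := B.orderEmbOfFin hBc
  apply hz
  have hdet : (Matrix.of fun a j => f (ℓ (e a) j)).det ≠ 0 := by
    have h1 : (Matrix.of fun a j => f (ℓ (e a) j)) = f.mapMatrix (Matrix.of fun a j => ℓ (e a) j) := rfl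
    rw [h1, ← RingHom.map_det]
    exact (map_ne_zero f).2 (hℓ e e.injective)
  refine Matrix.eq_zero_of_mulVec_eq_zero hdet ?_
  funext a
  exact (Finset.mem_filter.1 (hB (B.orderEmbOfFin_mem hBc a))).2

open Classical in
theorem zeros_le (f : k →+* K) {ℓ : Fin q → Fin (n + 1) → k} (hℓ : GP ℓ) (x : Fin r → Fin (n + 1) → K)
    (hx : ∀ σ, x σ ≠ 0) : (univ.filter fun i => uu f ℓ x i = 0).card ≤ r * n := by
  have hsub : (univ.filter fun i => uu f ℓ x i = 0) ⊆
      univ.biUnion fun σ => univ.filter fun i => lf f (ℓ i) (x σ) = 0 := by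
    intro i hi
    obtain ⟨σ, -, hσ⟩ := Finset.prod_eq_zero_iff.1 (Finset.mem_filter.1 hi).2
    exact Finset.mem_biUnion.2 ⟨σ, Finset.mem_univ _, Finset.mem_filter.2 ⟨Finset.mem_univ _, hσ⟩⟩
  refine (Finset.card_le_card hsub).trans ?_
  have := Finset.card_biUnion_le_card_mul (univ : Finset (Fin r))
    (fun σ => univ.filter fun i => lf f (ℓ i) (x σ) = 0) n fun σ _ => few f hℓ (x σ) (hx σ)
  rwa [Finset.card_univ, Fintype.card_fin] at this

theorem exists_ne (f : k →+* K) {ℓ : Fin q → Fin (n + 1) → k} (hℓ : GP ℓ) (hq : r * n < q)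
    (x : Fin r → Fin (n + 1) → K) (hx : ∀ σ, x σ ≠ 0) : ∃ i, uu f ℓ x i ≠ 0 := by
  classical
  by_contra hcon
  push Not at hcon
  have h1 := zeros_le f hℓ x hx
  rw [Finset.filter_true_of_mem fun i _ => hcon i, Finset.card_univ, Fintype.card_fin] at h1
  omega

theorem prod_zpow_sum {T : K} (hT : T ≠ 0) {ι : Type*} (s : Finset ι) (m : ι → ℤ) :
    ∏ i ∈ s, T ^ m i = T ^ ∑ i ∈ s, m i := by
  classical
  induction s using Finset.induction_on with
  | empty => simp
  | insert i s hi ih => rw [Finset.prod_insert hi, Finset.sum_insert hi, ih, zpow_add₀ hT]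

/-- The reduction of the constants. -/
noncomputable def red (f : k →+* K) (O : ValuationSubring K) (hf : ∀ c, f c ∈ O) : k →+* IsLocalRing.ResidueField O :=
  (IsLocalRing.residue O).comp (f.codRestrict O hf)

theorem step [Infinite k] (f : k →+* K) {ℓ : Fin q → Fin (n + 1) → k} (hℓ : GP ℓ) (hq : r * n < q)
    (A : Finset (Fin q)) (x : Fin r → Fin (n + 1) → K) (σ₀ : Fin r) (hx : ∀ σ, x σ ≠ 0)
    (hgen : Gen f ℓ A (x σ₀)) (b : Fin q) (hb : ∃ p ∈ Lin ℓ (insert b A), p ≠ 0) :
    ∃ (O : ValuationSubring K) (hf : ∀ c, f c ∈ O) (x' : Fin r → Fin (n + 1) → IsLocalRing.ResidueField O),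
      (∀ σ, x' σ ≠ 0) ∧ Gen (red f O hf) ℓ (insert b A) (x' σ₀) ∧
      (∀ a ∈ insert b A, lf (red f O hf) (ℓ a) (x' σ₀) = 0) ∧
      (∀ i, uu (red f O hf) ℓ x' i ≠ 0 ↔ uu f ℓ x i ≠ 0 ∧ ∀ j, uu f ℓ x j / uu f ℓ x i ∈ O) ∧
      ∀ m : Fin q → ℤ, ∑ i, m i = 0 → (∀ i, m i ≠ 0 → uu (red f O hf) ℓ x' i ≠ 0) →
        ∃ h : ∏ i, uu f ℓ x i ^ m i ∈ O, IsLocalRing.residue O ⟨_, h⟩ = ∏ i, uu (red f O hf) ℓ x' i ^ m i := by
  classical
  have hP : (van (Lin ℓ (insert b A))).IsPrime := van_prime _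
  have hsub : Lin ℓ (insert b A) ≤ Lin ℓ A := fun p hp a ha => hp a (Finset.mem_insert_of_mem ha)
  have hker : RingHom.ker (eval₂Hom f (x σ₀)) ≤ van (Lin ℓ (insert b A)) := by
    intro P hP p hp
    exact hgen P hP p (hsub hp)
  obtain ⟨O, hO, hu⟩ := exists_val (eval₂Hom f (x σ₀)) (van (Lin ℓ (insert b A))) hker
  have hf : ∀ c, f c ∈ O := by
    intro c
    have := hO (C c)
    simpa using this
  have hx0 : ∀ j, x σ₀ j ∈ O := by
    intro j
    have := hO (X j)
    simpa using this
  -- primitive representatives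
  have hz : ∀ σ, ∃ (t : K) (z : Fin (n + 1) → O), t ≠ 0 ∧ (∀ j, (z j : K) = t * x σ j) ∧ (∃ j, IsUnit (z j)) ∧
      (σ = σ₀ → ∀ j, z j = ⟨x σ₀ j, hx0 j⟩) := by
    intro σ
    by_cases h : σ = σ₀
    · subst h
      refine ⟨1, fun j => ⟨x σ j, hx0 j⟩, one_ne_zero, fun j => (one_mul _).symm, ?_, fun _ _ => rfl⟩
      obtain ⟨p, hp, hp0⟩ := hb
      obtain ⟨j, hj⟩ := Function.ne_iff.1 hp0
      refine ⟨j, ?_⟩
      have h1 := (hu (X j)).2 (by
        intro h2
        have h3 := h2 p hp
        rw [eval_X] at h3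
        exact hj h3)
      have h2 : (⟨eval₂Hom f (x σ) (X j), hO (X j)⟩ : O) = ⟨x σ j, hx0 j⟩ := by
        apply Subtype.ext
        simp
      rwa [h2] at h1
    · obtain ⟨t, z, ht, hz, j, hj⟩ := prim O (x σ) (hx σ)
      exact ⟨t, z, ht, hz, ⟨j, by rw [hj]; exact isUnit_one⟩, fun h' => absurd h' h⟩
  choose t z ht hz hzu hzσ using hz
  let π := IsLocalRing.residue O
  let x' : Fin r → Fin (n + 1) → IsLocalRing.ResidueField O := fun σ j => π (z σ j)
  have hx' : ∀ σ, x' σ ≠ 0 := by
    intro σ h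
    obtain ⟨j, hj⟩ := hzu σ
    exact (hj.map π).ne_zero (congrFun h j)
  set f' := red f O hf with hf'
  let fO : k →+* O := f.codRestrict O hf
  let T : K := ∏ σ, t σ
  have hT : T ≠ 0 := Finset.prod_ne_zero_iff.2 fun σ _ => ht σ
  -- values in `O`
  let w : Fin q → O := fun i => ∏ σ, ∑ j, fO (ℓ i j) * z σ j
  have hw : ∀ i, (w i : K) = T * uu f ℓ x i := by
    intro i
    simp only [w, T, uu, lf]
    rw [← Finset.prod_mul_distrib]
    push_cast
    refine Finset.prod_congr rfl fun σ _ => ?_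
    rw [Finset.mul_sum]
    refine Finset.sum_congr rfl fun j _ => ?_
    rw [hz]
    show f (ℓ i j) * (t σ * x σ j) = _
    ring
  have hπw : ∀ i, π (w i) = uu f' ℓ x' i := by
    intro i
    simp only [w, uu, lf, map_prod, map_sum, map_mul]
    rfl
  have hunit : ∀ i, IsUnit (w i) ↔ uu f' ℓ x' i ≠ 0 := by
    intro i
    rw [← hπw, IsLocalRing.residue_ne_zero_iff_isUnit]
  have heval : ∀ P : MvPolynomial (Fin (n + 1)) k,
      eval₂ f' (x' σ₀) P = π ⟨eval₂Hom f (x σ₀) P, hO P⟩ := by
    intro P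
    have h1 : eval₂Hom f' (x' σ₀) = π.comp ((eval₂Hom f (x σ₀)).codRestrict O hO) := by
      apply MvPolynomial.ringHom_ext
      · intro c
        rw [eval₂Hom_C]
        show π (f.codRestrict O hf c) = π _
        congr 1
        apply Subtype.ext
        show f c = eval₂Hom f (x σ₀) (C c)
        rw [eval₂Hom_C]
      · intro j
        rw [eval₂Hom_X']
        show π (z σ₀ j) = π _
        rw [hzσ σ₀ rfl j]
        congr 1
        apply Subtype.ext
        show x σ₀ j = eval₂Hom f (x σ₀) (X j)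
        rw [eval₂Hom_X']
    exact congrArg (fun g : MvPolynomial (Fin (n + 1)) k →+* _ => g P) h1
  have hres : ∀ P, eval₂ f' (x' σ₀) P = 0 ↔ P ∈ van (Lin ℓ (insert b A)) := by
    intro P
    rw [heval, ← not_iff_not, ← hu]
    exact IsLocalRing.residue_ne_zero_iff_isUnit _
  obtain ⟨i₀, hi₀⟩ := exists_ne f' hℓ hq x' hx'
  refine ⟨O, hf, x', hx', fun P hP => (hres P).1 hP, ?_, ?_, ?_⟩
  · intro a ha
    have h1 := (hres (∑ j, C (ℓ a j) * X j)).2 (by
      intro p hp
      rw [map_sum]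
      simp only [map_mul, eval_C, eval_X]
      exact hp a ha)
    rw [← coe_eval₂Hom, map_sum] at h1
    have h2 : ∑ j, f' (ℓ a j) * x' σ₀ j = 0 := by
      simpa only [map_mul, eval₂Hom_C, eval₂Hom_X'] using h1
    exact h2
  · intro i
    rw [← hunit]
    constructor
    · intro h
      have h1 : uu f ℓ x i ≠ 0 := by
        intro h2
        have h3 := hw i
        rw [h2, mul_zero] at h3
        have h4 : w i = 0 := Subtype.ext h3
        rw [h4] at h
        exact not_isUnit_zero h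
      refine ⟨h1, fun j => ?_⟩
      have h2 : uu f ℓ x j / uu f ℓ x i = (w j : K) * ((h.unit⁻¹ : Oˣ) : O) := by
        have h3 : (((h.unit⁻¹ : Oˣ) : O) : K) = (w i : K)⁻¹ := by
          have h4 : (w i : K) * (((h.unit⁻¹ : Oˣ) : O) : K) = 1 := by
            have h5 : w i * ((h.unit⁻¹ : Oˣ) : O) = 1 := h.mul_val_inv
            exact congrArg Subtype.val h5
          exact eq_inv_of_mul_eq_one_right h4
        rw [h3, hw, hw]
        field_simp
      rw [h2]
      exact O.mul_mem _ _ (w j).2 (((h.unit⁻¹ : Oˣ) : O)).2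
    · rintro ⟨h1, h2⟩
      have h3 : IsUnit (w i₀) := (hunit i₀).2 hi₀
      have h4 : w i₀ = ⟨uu f ℓ x i₀ / uu f ℓ x i, h2 i₀⟩ * w i := by
        apply Subtype.ext
        show (w i₀ : K) = uu f ℓ x i₀ / uu f ℓ x i * (w i : K)
        rw [hw, hw]
        field_simp
      rw [h4] at h3
      exact isUnit_of_mul_isUnit_right h3
  · intro m hm hsupp
    let y : Fin q → Oˣ := fun i => if h : IsUnit (w i) then h.unit else 1
    have hy : ∀ i, m i ≠ 0 → (y i : O) = w i := by
      intro i hi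
      have h1 : IsUnit (w i) := (hunit i).2 (hsupp i hi)
      simp only [y]
      rw [dif_pos h1]
      exact h1.unit_spec
    have h1 : ((((∏ i, y i ^ m i : Oˣ)) : O) : K) = ∏ i, uu f ℓ x i ^ m i := by
      have h2 : ((((∏ i, y i ^ m i : Oˣ)) : O) : K) = ∏ i, (((y i : O) : K)) ^ m i := by
        have h3 : ((((∏ i, y i ^ m i : Oˣ)) : O) : K) =
            (((Units.map (O.subtype : O →* K)) (∏ i, y i ^ m i) : Kˣ) : K) := rfl
        rw [h3, map_prod, Units.coe_prod]
        refine Finset.prod_congr rfl fun i _ => ?_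
        rw [map_zpow, Units.val_zpow_eq_zpow_val]
        rfl
      rw [h2]
      have h3 : ∀ i, (((y i : O) : K)) ^ m i = T ^ m i * uu f ℓ x i ^ m i := by
        intro i
        by_cases hi : m i = 0
        · rw [hi]
          simp
        · rw [hy i hi, hw, mul_zpow]
      rw [Finset.prod_congr rfl fun i _ => h3 i, Finset.prod_mul_distrib]
      have h4 : ∏ i, T ^ m i = 1 := by
        rw [prod_zpow_sum hT, hm, zpow_zero]
      rw [h4, one_mul]
    refine ⟨by rw [← h1]; exact ((∏ i, y i ^ m i : Oˣ) : O).2, ?_⟩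
    have h5 : (⟨∏ i, uu f ℓ x i ^ m i, by rw [← h1]; exact ((∏ i, y i ^ m i : Oˣ) : O).2⟩ : O) =
        ((∏ i, y i ^ m i : Oˣ) : O) := Subtype.ext h1.symm
    rw [h5]
    have h6 : IsLocalRing.residue O ((∏ i, y i ^ m i : Oˣ) : O) =
        (((Units.map (π : O →* _)) (∏ i, y i ^ m i) : (IsLocalRing.ResidueField O)ˣ) : IsLocalRing.ResidueField O) := rfl
    rw [h6, map_prod, Units.coe_prod]
    refine Finset.prod_congr rfl fun i _ => ?_
    rw [map_zpow, Units.val_zpow_eq_zpow_val]
    by_cases hi : m i = 0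
    · rw [hi]
      simp
    · congr 1
      show π (y i : O) = _
      rw [hy i hi, hπw]

end Pool.Agent.Helper97.GH
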